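import Pool.Agent.Y198.MC.Stm
import Pool.Agent.Y166.GM.Cone

/-! The second family is dense in its stratum. -/

set_option autoImplicit false

namespace Pool.Agent.Y198.MC

open Polynomial Pool.Agent.Y166.GM Pool.Agent.Y166.SM

section
variable {k : Type} [Field k] {N : ℕ}

theorem poly_line {σ : Type} (P : MvPolynomial σ k) (a b : σ → k) :
    ∃ Φ : k[X], ∀ ε, Φ.eval ε = MvPolynomial.eval (fun x => a x + ε * b x) P := by
  induction P using MvPolynomial.induction_on with
  | C r => exact ⟨C r, fun ε => by rw [eval_C, MvPolynomial.eval_C]⟩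
  | add p q hp hq =>
    obtain ⟨Φ, hΦ⟩ := hp
    obtain ⟨Ψ, hΨ⟩ := hq
    exact ⟨Φ + Ψ, fun ε => by rw [eval_add, hΦ, hΨ, map_add]⟩
  | mul_X p i hp =>
    obtain ⟨Φ, hΦ⟩ := hp
    exact ⟨Φ * (C (a i) + X * C (b i)), fun ε => by
      rw [eval_mul, hΦ, map_mul, MvPolynomial.eval_X, eval_add, eval_C, eval_mul, eval_X, eval_C]⟩

theorem wdg_add_mul {A : Type} [CommRing A] (u v : Fin N → A) (h : A) :
    wdg u (fun i => v i + h * u i) = wdg u v := by
  funext s
  unfold wdg
  ring

theorem cub_shift {A : Type} [CommRing A] (u v : Fin N → A) (h c0 c1 c2 f : A)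
    (h0 : c0 = f + 3 * h * c1 - 3 * h ^ 2 * c2) (h1 : c1 = 2 * h * c2) :
    cub u v ![c0, c1, c2, 0] = cub u (fun i => v i + h * u i) ![f, 0, c2, 0] := by
  funext t
  unfold cub
  simp only [Matrix.cons_val_zero, Matrix.cons_val_one, Matrix.cons_val]
  rw [h0, h1]
  ring

theorem cv_smul (e d : ℕ) (u v : Fin N → k[X]) (c c' : Fin 4 → k[X]) (p : k)
    (h : ∀ i, c i = C p * c' i) : cv e d u v c = p • cv e d u v c' := by
  funext x
  have h1 : cub u v c x.2.1 = C p * cub u v c' x.2.1 := by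
    unfold cub
    rw [h 0, h 1, h 2, h 3]
    ring
  show (wdg u v x.1.1).coeff x.1.2 * (cub u v c x.2.1).coeff x.2.2 =
    p * ((wdg u v x.1.1).coeff x.1.2 * (cub u v c' x.2.1).coeff x.2.2)
  rw [h1, coeff_C_mul]
  ring

theorem cv_congr (e d : ℕ) (u v v' : Fin N → k[X]) (c c' : Fin 4 → k[X])
    (h : wdg u v = wdg u v') (h' : cub u v c = cub u v' c') :
    cv e d u v c = cv e d u v' c' := by
  unfold cv
  rw [h, h']

/-- The case of a nonzero coefficient. -/
theorem mem_str2 [CharZero k] (m n : ℕ) (hmn : m ≤ n) (u v : Fin N → k[X]) (c0 c1 : k[X])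
    (p : k) (hp : p ≠ 0) (hB : Bd m n (m + 2 * n) u v ![c0, c1, C p, 0])
    (hG : Gd m n (m + 2 * n) u v ![c0, c1, C p, 0])
    (γ : PP k ((Sg N × Fin (m + n + 1)) × (Ta N × Fin (m + 2 * n + 1))))
    (hγ : Rep γ (cv (m + n) (m + 2 * n) u v ![c0, c1, C p, 0])) : γ ∈ Str2 k N m n := by
  have h2p : (2 * p : k) ≠ 0 := mul_ne_zero two_ne_zero hp
  set h : k[X] := C ((2 * p)⁻¹) * c1 with hh
  set f : k[X] := c0 - 3 * h * c1 + 3 * h ^ 2 * C p with hf
  set v' : Fin N → k[X] := fun i => v i + h * u i with hv'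
  have hc1 : c1 = 2 * h * C p := by
    have h1 : (C ((2 * p)⁻¹) * C (2 * p) : k[X]) = 1 := by
      rw [← C_mul, inv_mul_cancel₀ h2p, C_1]
    have h2 : (C (2 * p) : k[X]) = 2 * C p := by
      rw [C_mul]
      congr 1
    rw [hh]
    calc c1 = (C ((2 * p)⁻¹) * C (2 * p)) * c1 := by rw [h1, one_mul]
      _ = 2 * (C ((2 * p)⁻¹) * c1) * C p := by rw [h2]; ring
  have d1 : c1.natDegree ≤ n - m := by
    by_cases h0 : c1 = 0
    · rw [h0, natDegree_zero]; exact Nat.zero_le _
    · have := hB.hc 1 h0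
      have e1 : (![c0, c1, C p, 0] : Fin 4 → k[X]) 1 = c1 := rfl
      rw [e1] at this
      have e2 : ((1 : Fin 4) : ℕ) = 1 := rfl
      rw [e2] at this
      omega
  have d0 : c0.natDegree ≤ 2 * (n - m) := by
    by_cases h0 : c0 = 0
    · rw [h0, natDegree_zero]; exact Nat.zero_le _
    · have := hB.hc 0 h0
      have e1 : (![c0, c1, C p, 0] : Fin 4 → k[X]) 0 = c0 := rfl
      rw [e1] at this
      have e2 : ((0 : Fin 4) : ℕ) = 0 := rfl
      rw [e2] at this
      omega
  have dh : h.natDegree ≤ n - m := (natDegree_C_mul_le _ _).trans d1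
  have df : f.natDegree ≤ 2 * (n - m) := by
    have n3 : (3 : k[X]) = C 3 := rfl
    have t1 : (3 * h * c1).natDegree ≤ 2 * (n - m) := by
      refine natDegree_mul_le.trans ?_
      have : (3 * h).natDegree ≤ n - m := by
        rw [n3]
        exact (natDegree_C_mul_le _ _).trans dh
      omega
    have t2 : (3 * h ^ 2 * C p).natDegree ≤ 2 * (n - m) := by
      refine (natDegree_mul_C_le _ _).trans ?_
      rw [n3]
      refine (natDegree_C_mul_le _ _).trans ?_
      refine natDegree_pow_le.trans ?_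
      omega
    rw [hf]
    refine (natDegree_add_le _ _).trans (max_le ((natDegree_sub_le _ _).trans (max_le d0 t1)) t2)
  have hcub : cub u v ![c0, c1, C p, 0] = cub u v' ![f, 0, C p, 0] :=
    cub_shift u v h c0 c1 (C p) f (by rw [hf]; ring) hc1
  have hw : wdg u v' = wdg u v := wdg_add_mul u v h
  have d0' : (C (p⁻¹) * f).natDegree ≤ 2 * (n - m) := (natDegree_C_mul_le _ _).trans df
  refine ⟨u, v', C (p⁻¹) * f, ⟨hB.hu, ?_, ?_⟩, ⟨?_, ?_, ?_, ?_⟩, ?_⟩
  · intro i
    refine (natDegree_add_le _ _).trans (max_le (hB.hv i) ?_)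
    refine natDegree_mul_le.trans ?_
    have := hB.hu i
    omega
  · intro i hi
    fin_cases i
    · show (C (p⁻¹) * f).natDegree + ((3 - 0) * m + 0 * n) ≤ m + 2 * n
      omega
    · exact absurd rfl hi
    · show (1 : k[X]).natDegree + ((3 - 2) * m + 2 * n) ≤ m + 2 * n
      rw [natDegree_one]
      omega
    · exact absurd rfl hi
  · intro t
    have h1 := hG.fin t
    have h2 : wdg (fun i => (u i).eval t) (fun i => (v' i).eval t) =
        wdg (fun i => (u i).eval t) (fun i => (v i).eval t) := by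
      have h3 := wdg_add_mul (fun i => (u i).eval t) (fun i => (v i).eval t) (h.eval t)
      rw [← h3]
      congr 1
      funext i
      rw [hv']
      simp only [eval_add, eval_mul]
    rw [h2]
    exact h1
  · have h1 := hG.inf
    have h2 : wdg (fun i => (u i).coeff m) (fun i => (v' i).coeff n) =
        wdg (fun i => (u i).coeff m) (fun i => (v i).coeff n) := by
      have h3 := wdg_add_mul (fun i => (u i).coeff m) (fun i => (v i).coeff n) (h.coeff (n - m))
      rw [← h3]
      congr 1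
      funext i
      rw [hv']
      simp only [coeff_add]
      congr 1
      have h4 := coeff_mul_add_eq_of_natDegree_le dh (hB.hu i)
      have h5 : n - m + m = n := by omega
      rw [h5] at h4
      exact h4
    rw [h2]
    exact h1
  · intro t
    refine ⟨2, ?_⟩
    show (1 : k[X]).eval t ≠ 0
    rw [eval_one]
    exact one_ne_zero
  · refine ⟨2, ?_, ?_⟩
    · show (3 - 2) * m + 2 * n ≤ m + 2 * n
      omega
    · show (1 : k[X]).coeff (m + 2 * n - ((3 - 2) * m + 2 * n)) ≠ 0
      have : m + 2 * n - ((3 - 2) * m + 2 * n) = 0 := by omega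
      rw [this, coeff_one_zero]
      exact one_ne_zero
  · have h1 : cv (m + n) (m + 2 * n) u v ![c0, c1, C p, 0] =
        cv (m + n) (m + 2 * n) u v' ![f, 0, C p, 0] := cv_congr _ _ _ _ _ _ _ hw.symm hcub
    have h2 : cv (m + n) (m + 2 * n) u v' ![f, 0, C p, 0] =
        p • cv (m + n) (m + 2 * n) u v' ![C (p⁻¹) * f, 0, 1, 0] := by
      apply cv_smul
      intro i
      fin_cases i
      · show f = C p * (C (p⁻¹) * f)
        rw [← mul_assoc, ← C_mul, mul_inv_cancel₀ hp, C_1, one_mul]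
      · show (0 : k[X]) = C p * 0
        rw [mul_zero]
      · show C p = C p * 1
        rw [mul_one]
      · show (0 : k[X]) = C p * 0
        rw [mul_zero]
    rw [h1, h2] at hγ
    have h3 := hγ.smul (inv_ne_zero hp)
    rw [smul_smul, inv_mul_cancel₀ hp, one_smul] at h3
    exact h3

theorem stmDense2 : StmDense2 := by
  intro k _ _ _ N m n hN hmn γ hγ
  have : Infinite k := IsAlgClosed.instInfinite
  obtain ⟨u, v, c, hB, hG, hr⟩ := hγ
  have hc3 : c 3 = 0 := by
    by_contra h
    have h1 := hB.hc 3 h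
    have e2 : ((3 : Fin 4) : ℕ) = 3 := rfl
    rw [e2] at h1
    omega
  have hc2 : c 2 = C ((c 2).coeff 0) := by
    apply eq_C_of_natDegree_le_zero
    by_cases h : c 2 = 0
    · rw [h, natDegree_zero]
    · have h1 := hB.hc 2 h
      have e2 : ((2 : Fin 4) : ℕ) = 2 := rfl
      rw [e2] at h1
      omega
  have hc : c = ![c 0, c 1, C ((c 2).coeff 0), 0] := by
    funext i
    fin_cases i
    · rfl
    · rfl
    · exact hc2
    · exact hc3
  set c0 := c 0
  set c1 := c 1
  set p := (c 2).coeff 0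
  by_cases hp : p = 0
  · rw [mem_closure_iff']
    intro m' P hP h0
    by_contra hne
    have hne' : MvPolynomial.eval (cv (m + n) (m + 2 * n) u v c) P ≠ 0 := by
      rw [Ne, zero_iff hr hP]
      exact hne
    obtain ⟨x0, hx0⟩ : ∃ x, cv (m + n) (m + 2 * n) u v c x ≠ 0 := by
      by_contra hcon
      push Not at hcon
      exact hr.ne_zero (funext hcon)
    set b : (Sg N × Fin (m + n + 1)) × (Ta N × Fin (m + 2 * n + 1)) → k :=
      cv (m + n) (m + 2 * n) u v ![0, 0, 1, 0] with hb
    have hline : ∀ ε : k, cv (m + n) (m + 2 * n) u v ![c0, c1, C ε, 0] =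
        fun x => cv (m + n) (m + 2 * n) u v c x + ε * b x := by
      intro ε
      funext x
      have h1 : cub u v ![c0, c1, C ε, 0] x.2.1 = cub u v c x.2.1 +
          C ε * cub u v ![0, 0, 1, 0] x.2.1 := by
        rw [hc, hp]
        unfold cub
        simp only [Matrix.cons_val_zero, Matrix.cons_val_one, Matrix.cons_val, C_0]
        ring
      show (wdg u v x.1.1).coeff x.1.2 * (cub u v ![c0, c1, C ε, 0] x.2.1).coeff x.2.2 =
        (wdg u v x.1.1).coeff x.1.2 * (cub u v c x.2.1).coeff x.2.2 +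
        ε * ((wdg u v x.1.1).coeff x.1.2 * (cub u v ![0, 0, 1, 0] x.2.1).coeff x.2.2)
      rw [h1, coeff_add, coeff_C_mul]
      ring
    obtain ⟨Φ, hΦ⟩ := poly_line P (cv (m + n) (m + 2 * n) u v c) b
    obtain ⟨Ψ, hΨ⟩ := poly_line (MvPolynomial.X x0) (cv (m + n) (m + 2 * n) u v c) b
    have hΦ0 : Φ ≠ 0 := by
      intro h
      apply hne'
      have := hΦ 0
      rw [h, eval_zero] at this
      simpa using this.symm
    have hΨ0 : Ψ ≠ 0 := by
      intro h
      apply hx0
      have := hΨ 0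
      rw [h, eval_zero, MvPolynomial.eval_X] at this
      simpa using this.symm
    obtain ⟨ε, hε⟩ := exists_ne_of_ne_zero (mul_ne_zero (mul_ne_zero hΦ0 hΨ0) (X_ne_zero (R := k)))
    rw [eval_mul, eval_mul, eval_X] at hε
    have hε0 : ε ≠ 0 := right_ne_zero_of_mul hε
    have hε1 : Φ.eval ε ≠ 0 := left_ne_zero_of_mul (left_ne_zero_of_mul hε)
    have hε2 : Ψ.eval ε ≠ 0 := right_ne_zero_of_mul (left_ne_zero_of_mul hε)
    rw [hΦ, ← hline] at hε1
    rw [hΨ, ← hline, MvPolynomial.eval_X] at hε2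
    obtain ⟨γ', hγ'⟩ := exists_rep (v := cv (m + n) (m + 2 * n) u v ![c0, c1, C ε, 0]) (by
      intro h
      exact hε2 (congrFun h x0))
    have hmem : γ' ∈ Str2 k N m n := by
      refine mem_str2 m n hmn.le u v c0 c1 ε hε0 ⟨hB.hu, hB.hv, ?_⟩ ⟨hG.fin, hG.inf, ?_, ?_⟩ γ' hγ'
      · intro i hi
        fin_cases i
        · exact hB.hc 0 hi
        · exact hB.hc 1 hi
        · show (C ε : k[X]).natDegree + ((3 - 2) * m + 2 * n) ≤ m + 2 * n
          rw [natDegree_C]
          omega
        · exact absurd rfl hi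
      · intro t
        refine ⟨2, ?_⟩
        show (C ε : k[X]).eval t ≠ 0
        rw [eval_C]
        exact hε0
      · refine ⟨2, ?_, ?_⟩
        · show (3 - 2) * m + 2 * n ≤ m + 2 * n
          omega
        · show (C ε : k[X]).coeff (m + 2 * n - ((3 - 2) * m + 2 * n)) ≠ 0
          have : m + 2 * n - ((3 - 2) * m + 2 * n) = 0 := by omega
          rw [this, coeff_C_zero]
          exact hε0
    apply hε1
    rw [zero_iff hγ' hP]
    exact h0 γ' hmem
  · apply subset_closure
    rw [hc] at hB hG hr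
    exact mem_str2 m n hmn.le u v c0 c1 p hp hB hG γ hr

end

end Pool.Agent.Y198.MC
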