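import Pool.Agent.Y198.MC.Der
import Pool.Agent.Y166.GM.Curves

/-! The points of the strata are morphisms. -/

set_option autoImplicit false

namespace Pool.Agent.Y198.MC

open Polynomial Pool.Agent.Y166.GM Pool.Agent.Y166.SM

section
variable {k : Type} [Field k]

theorem biforms_prod {σ τ : Type} {e d : ℕ} (l : σ × Fin (e + 1) → k) (m : τ × Fin (d + 1) → k)
    (s : Fin 2 → k) (t : σ × τ) :
    biforms (fun x : (σ × Fin (e + 1)) × (τ × Fin (d + 1)) => l x.1 * m x.2) s t =
      forms l s t.1 * forms m s t.2 := by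
  unfold biforms forms
  rw [Finset.sum_mul_sum]
  refine Finset.sum_congr rfl fun p _ => Finset.sum_congr rfl fun q _ => ?_
  ring

theorem biforms_smul {σ τ : Type} {e d : ℕ} (c : k)
    (γ : (σ × Fin (e + 1)) × (τ × Fin (d + 1)) → k) (s : Fin 2 → k) :
    biforms (c • γ) s = c • biforms γ s := by
  funext t
  rw [Pi.smul_apply, smul_eq_mul]
  unfold biforms
  rw [Finset.mul_sum]
  refine Finset.sum_congr rfl fun p _ => ?_
  rw [Finset.mul_sum]
  refine Finset.sum_congr rfl fun q _ => ?_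
  rw [Pi.smul_apply, smul_eq_mul]
  ring

theorem rep_biforms {σ τ : Type} {e d : ℕ} {γ : PP k ((σ × Fin (e + 1)) × (τ × Fin (d + 1)))}
    {v : (σ × Fin (e + 1)) × (τ × Fin (d + 1)) → k} (h : Rep γ v) (s : Fin 2 → k)
    (z : PP k (σ × τ)) : Rep z (biforms γ.rep s) ↔ Rep z (biforms v s) := by
  obtain ⟨a, ha, hv⟩ := (rep_rep γ).exists_smul h
  rw [hv, biforms_smul]
  constructor
  · exact fun h1 => h1.smul ha
  · intro h1
    have := h1.smul (inv_ne_zero ha)
    rw [smul_smul, inv_mul_cancel₀ ha, one_smul] at this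
    exact this

theorem deg3 {x y z : k[X]} {p q r w : ℕ} (hw : p + q + r = w) (hx : x.natDegree ≤ p)
    (hy : y.natDegree ≤ q) (hz : z.natDegree ≤ r) : (x * y * z).natDegree ≤ w := by
  subst hw
  exact natDegree_mul_le.trans (add_le_add (natDegree_mul_le.trans (add_le_add hx hy)) hz)

theorem coeff3 {x y z : k[X]} {p q r w : ℕ} (hw : p + q + r = w) (hx : x.natDegree ≤ p)
    (hy : y.natDegree ≤ q) (hz : z.natDegree ≤ r) :
    (x * y * z).coeff w = x.coeff p * y.coeff q * z.coeff r := by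
  subst hw
  rw [coeff_mul_add_eq_of_natDegree_le (natDegree_mul_le.trans (add_le_add hx hy)) hz,
    coeff_mul_add_eq_of_natDegree_le hx hy]

theorem coeff_cmul {c P : k[X]} {w d : ℕ} (hc : c ≠ 0 → c.natDegree + w ≤ d)
    (hP : P.natDegree ≤ w) :
    (c * P).coeff d = (if w ≤ d then c.coeff (d - w) else 0) * P.coeff w := by
  by_cases h : w ≤ d
  · rw [if_pos h]
    by_cases h0 : c = 0
    · rw [h0, zero_mul, coeff_zero, coeff_zero, zero_mul]
    · have h1 := hc h0
      have h2 := coeff_mul_add_eq_of_natDegree_le (f := c) (g := P) (df := d - w) (dg := w)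
        (by omega) hP
      rwa [Nat.sub_add_cancel h] at h2
  · rw [if_neg h, zero_mul]
    have h0 : c = 0 := by
      by_contra h0
      have := hc h0
      omega
    rw [h0, zero_mul, coeff_zero]

theorem natDegree_cmul {c P : k[X]} {w d : ℕ} (hc : c ≠ 0 → c.natDegree + w ≤ d)
    (hP : P.natDegree ≤ w) : (c * P).natDegree ≤ d := by
  by_cases h0 : c = 0
  · rw [h0, zero_mul, natDegree_zero]
    exact Nat.zero_le _
  · have := hc h0
    exact natDegree_mul_le.trans ((add_le_add le_rfl hP).trans this)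

variable {N : ℕ}

theorem wdg_natDegree {a b e : ℕ} (hab : a + b = e) {u v : Fin N → k[X]}
    (hu : ∀ i, (u i).natDegree ≤ a) (hv : ∀ i, (v i).natDegree ≤ b) (s : Sg N) :
    (wdg u v s).natDegree ≤ e := by
  subst hab
  unfold wdg
  refine (natDegree_sub_le _ _).trans (max_le ?_ ?_)
  · exact natDegree_mul_le.trans (add_le_add (hu _) (hv _))
  · refine natDegree_mul_le.trans ?_
    have h1 := hv s.1
    have h2 := hu s.2
    omega

theorem wdg_top {a b e : ℕ} (hab : a + b = e) {u v : Fin N → k[X]}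
    (hu : ∀ i, (u i).natDegree ≤ a) (hv : ∀ i, (v i).natDegree ≤ b) (s : Sg N) :
    (wdg u v s).coeff e = wdg (fun i => (u i).coeff a) (fun i => (v i).coeff b) s := by
  subst hab
  unfold wdg
  rw [coeff_sub, coeff_mul_add_eq_of_natDegree_le (hu _) (hv _), add_comm a b,
    coeff_mul_add_eq_of_natDegree_le (hv _) (hu _)]

theorem wdg_eval (u v : Fin N → k[X]) (t : k) (s : Sg N) :
    (wdg u v s).eval t = wdg (fun i => (u i).eval t) (fun i => (v i).eval t) s := by
  unfold wdg
  rw [eval_sub, eval_mul, eval_mul]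

theorem cub_eval (u v : Fin N → k[X]) (c : Fin 4 → k[X]) (t : k) (s : Ta N) :
    (cub u v c s).eval t =
      cub (fun i => (u i).eval t) (fun i => (v i).eval t) (fun i => (c i).eval t) s := by
  unfold cub
  simp only [eval_add, eval_mul]

/-- The coefficients at infinity. -/
noncomputable def topc (a b d : ℕ) (c : Fin 4 → k[X]) : Fin 4 → k := fun i =>
  if (3 - (i : ℕ)) * a + i * b ≤ d then (c i).coeff (d - ((3 - (i : ℕ)) * a + i * b)) else 0

section
variable {a b d : ℕ} {u v : Fin N → k[X]} {c : Fin 4 → k[X]} (h : Bd a b d u v c)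
include h

theorem cub_natDegree (t : Ta N) : (cub u v c t).natDegree ≤ d := by
  have hu := h.hu
  have hv := h.hv
  have c0 := h.hc 0
  have c1 := h.hc 1
  have c2 := h.hc 2
  have c3 := h.hc 3
  have e0 : (3 - ((0 : Fin 4) : ℕ)) * a + ((0 : Fin 4) : ℕ) * b = 3 * a := by simp
  have e1 : (3 - ((1 : Fin 4) : ℕ)) * a + ((1 : Fin 4) : ℕ) * b = 2 * a + b := by simp
  have e2 : (3 - ((2 : Fin 4) : ℕ)) * a + ((2 : Fin 4) : ℕ) * b = a + 2 * b := by
    show (3 - 2) * a + 2 * b = _
    omega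
  have e3 : (3 - ((3 : Fin 4) : ℕ)) * a + ((3 : Fin 4) : ℕ) * b = 3 * b := by
    show (3 - 3) * a + 3 * b = _
    omega
  rw [e0] at c0
  rw [e1] at c1
  rw [e2] at c2
  rw [e3] at c3
  unfold cub
  refine (natDegree_add_le _ _).trans (max_le ((natDegree_add_le _ _).trans (max_le
    ((natDegree_add_le _ _).trans (max_le ?_ ?_)) ?_)) ?_)
  · exact natDegree_cmul c0 (deg3 (by omega) (hu _) (hu _) (hu _))
  · refine natDegree_cmul c1 ((natDegree_add_le _ _).trans (max_le ((natDegree_add_le _ _).trans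
      (max_le ?_ ?_)) ?_))
    · exact deg3 (by omega) (hu _) (hu _) (hv _)
    · exact deg3 (by omega) (hu _) (hv _) (hu _)
    · exact deg3 (by omega) (hv _) (hu _) (hu _)
  · refine natDegree_cmul c2 ((natDegree_add_le _ _).trans (max_le ((natDegree_add_le _ _).trans
      (max_le ?_ ?_)) ?_))
    · exact deg3 (by omega) (hu _) (hv _) (hv _)
    · exact deg3 (by omega) (hv _) (hu _) (hv _)
    · exact deg3 (by omega) (hv _) (hv _) (hu _)
  · exact natDegree_cmul c3 (deg3 (by omega) (hv _) (hv _) (hv _))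

theorem cub_top (t : Ta N) : (cub u v c t).coeff d =
    cub (fun i => (u i).coeff a) (fun i => (v i).coeff b) (topc a b d c) t := by
  have hu := h.hu
  have hv := h.hv
  have c0 := h.hc 0
  have c1 := h.hc 1
  have c2 := h.hc 2
  have c3 := h.hc 3
  have e0 : (3 - ((0 : Fin 4) : ℕ)) * a + ((0 : Fin 4) : ℕ) * b = 3 * a := by simp
  have e1 : (3 - ((1 : Fin 4) : ℕ)) * a + ((1 : Fin 4) : ℕ) * b = 2 * a + b := by simp
  have e2 : (3 - ((2 : Fin 4) : ℕ)) * a + ((2 : Fin 4) : ℕ) * b = a + 2 * b := by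
    show (3 - 2) * a + 2 * b = _
    omega
  have e3 : (3 - ((3 : Fin 4) : ℕ)) * a + ((3 : Fin 4) : ℕ) * b = 3 * b := by
    show (3 - 3) * a + 3 * b = _
    omega
  have t0 : topc a b d c 0 = if 3 * a ≤ d then (c 0).coeff (d - 3 * a) else 0 := by
    unfold topc; rw [e0]
  have t1 : topc a b d c 1 = if 2 * a + b ≤ d then (c 1).coeff (d - (2 * a + b)) else 0 := by
    unfold topc; rw [e1]
  have t2 : topc a b d c 2 = if a + 2 * b ≤ d then (c 2).coeff (d - (a + 2 * b)) else 0 := by
    unfold topc; rw [e2]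
  have t3 : topc a b d c 3 = if 3 * b ≤ d then (c 3).coeff (d - 3 * b) else 0 := by
    unfold topc; rw [e3]
  rw [e0] at c0
  rw [e1] at c1
  rw [e2] at c2
  rw [e3] at c3
  unfold cub
  rw [t0, t1, t2, t3]
  rw [coeff_add, coeff_add, coeff_add]
  have r1 : ∀ i j l : Fin N, (u i * u j * u l).natDegree ≤ 3 * a := fun i j l =>
    deg3 (by omega) (hu _) (hu _) (hu _)
  have r2 : ∀ i j l : Fin N, (u i * u j * v l).natDegree ≤ 2 * a + b := fun i j l =>
    deg3 (by omega) (hu _) (hu _) (hv _)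
  have r3 : ∀ i j l : Fin N, (u i * v j * u l).natDegree ≤ 2 * a + b := fun i j l =>
    deg3 (by omega) (hu _) (hv _) (hu _)
  have r4 : ∀ i j l : Fin N, (v i * u j * u l).natDegree ≤ 2 * a + b := fun i j l =>
    deg3 (by omega) (hv _) (hu _) (hu _)
  have r5 : ∀ i j l : Fin N, (u i * v j * v l).natDegree ≤ a + 2 * b := fun i j l =>
    deg3 (by omega) (hu _) (hv _) (hv _)
  have r6 : ∀ i j l : Fin N, (v i * u j * v l).natDegree ≤ a + 2 * b := fun i j l =>
    deg3 (by omega) (hv _) (hu _) (hv _)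
  have r7 : ∀ i j l : Fin N, (v i * v j * u l).natDegree ≤ a + 2 * b := fun i j l =>
    deg3 (by omega) (hv _) (hv _) (hu _)
  have r8 : ∀ i j l : Fin N, (v i * v j * v l).natDegree ≤ 3 * b := fun i j l =>
    deg3 (by omega) (hv _) (hv _) (hv _)
  congr 1
  · congr 1
    · congr 1
      · rw [coeff_cmul c0 (r1 _ _ _), coeff3 (by omega) (hu _) (hu _) (hu _)]
      · rw [coeff_cmul c1 ((natDegree_add_le _ _).trans (max_le ((natDegree_add_le _ _).trans
          (max_le (r2 _ _ _) (r3 _ _ _))) (r4 _ _ _))), coeff_add, coeff_add,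
          coeff3 (by omega) (hu _) (hu _) (hv _), coeff3 (by omega) (hu _) (hv _) (hu _),
          coeff3 (by omega) (hv _) (hu _) (hu _)]
    · rw [coeff_cmul c2 ((natDegree_add_le _ _).trans (max_le ((natDegree_add_le _ _).trans
          (max_le (r5 _ _ _) (r6 _ _ _))) (r7 _ _ _))), coeff_add, coeff_add,
          coeff3 (by omega) (hu _) (hv _) (hv _), coeff3 (by omega) (hv _) (hu _) (hv _),
          coeff3 (by omega) (hv _) (hv _) (hu _)]
  · rw [coeff_cmul c3 (r8 _ _ _), coeff3 (by omega) (hv _) (hv _) (hv _)]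

end

/-- The two vectors of coefficients. -/
noncomputable def lv (e : ℕ) (u v : Fin N → k[X]) : Sg N × Fin (e + 1) → k :=
  fun x => (wdg u v x.1).coeff x.2

noncomputable def mv (d : ℕ) (u v : Fin N → k[X]) (c : Fin 4 → k[X]) : Ta N × Fin (d + 1) → k :=
  fun x => (cub u v c x.1).coeff x.2

theorem cv_eq (e d : ℕ) (u v : Fin N → k[X]) (c : Fin 4 → k[X]) :
    cv e d u v c = fun x => lv e u v x.1 * mv d u v c x.2 := rfl

theorem ptX_ne {K : Type} [Field K] (u v : Fin N → K) (c : Fin 4 → K) (h : wdg u v ≠ 0)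
    (hc : ∃ i, c i ≠ 0) : ptX u v c ≠ 0 := by
  obtain ⟨s, hs⟩ : ∃ s, wdg u v s ≠ 0 := by
    by_contra hcon
    push Not at hcon
    exact h (funext hcon)
  obtain ⟨t, ht⟩ : ∃ t, cub u v c t ≠ 0 := by
    by_contra hcon
    push Not at hcon
    obtain ⟨i, hi⟩ := hc
    exact hi (cub_inj u v c s hs hcon i)
  intro h0
  exact (mul_ne_zero hs ht) (congrFun h0 (s, t))

/-- The value of the curve is a multiple of a point of `X`. -/
theorem value {a b d e : ℕ} (hab : a + b = e) {u v : Fin N → k[X]} {c : Fin 4 → k[X]}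
    (h : Bd a b d u v c) (hg : Gd a b d u v c) (s : Fin 2 → k) (hs : s ≠ 0) :
    ∃ (r : k) (u0 v0 : Fin N → k) (c0 : Fin 4 → k), r ≠ 0 ∧ ptX u0 v0 c0 ≠ 0 ∧
      biforms (cv e d u v c) s = r • ptX u0 v0 c0 := by
  rw [cv_eq]
  by_cases hs1 : s 1 = 0
  · have hs0 : s 0 ≠ 0 := by
      intro h0
      apply hs
      funext i
      fin_cases i
      · exact h0
      · exact hs1
    refine ⟨s 0 ^ e * s 0 ^ d, fun i => (u i).coeff a, fun i => (v i).coeff b, topc a b d c,
      mul_ne_zero (pow_ne_zero _ hs0) (pow_ne_zero _ hs0), ptX_ne _ _ _ hg.inf ?_, ?_⟩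
    · obtain ⟨i, hi1, hi2⟩ := hg.cinf
      refine ⟨i, ?_⟩
      unfold topc
      rw [if_pos hi1]
      exact hi2
    · funext t
      rw [biforms_prod, forms_inf _ _ hs1, forms_inf _ _ hs1, Pi.smul_apply, smul_eq_mul]
      have e1 : lv e u v (t.1, Fin.last e) =
          wdg (fun i => (u i).coeff a) (fun i => (v i).coeff b) t.1 := by
        unfold lv
        rw [Fin.val_last]
        exact wdg_top hab h.hu h.hv t.1
      have e2 : mv d u v c (t.2, Fin.last d) =
          cub (fun i => (u i).coeff a) (fun i => (v i).coeff b) (topc a b d c) t.2 := by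
        unfold mv
        rw [Fin.val_last]
        exact cub_top h t.2
      rw [e1, e2]
      unfold ptX
      ring
  · refine ⟨s 1 ^ e * s 1 ^ d, fun i => (u i).eval (s 0 / s 1), fun i => (v i).eval (s 0 / s 1),
      fun i => (c i).eval (s 0 / s 1),
      mul_ne_zero (pow_ne_zero _ hs1) (pow_ne_zero _ hs1), ptX_ne _ _ _ (hg.fin _) (hg.cfin _), ?_⟩
    funext t
    rw [biforms_prod, forms_aff _ _ hs1, forms_aff _ _ hs1, Pi.smul_apply, smul_eq_mul]
    have f1 : (fun l : Fin (e + 1) => lv e u v (t.1, l)) =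
        fun l : Fin (e + 1) => (wdg u v t.1).coeff l := rfl
    have f2 : (fun l : Fin (d + 1) => mv d u v c (t.2, l)) =
        fun l : Fin (d + 1) => (cub u v c t.2).coeff l := rfl
    have e1 : (pol fun l : Fin (e + 1) => lv e u v (t.1, l)) = wdg u v t.1 := by
      rw [f1]
      exact pol_coeff_self (m := e) (wdg u v t.1) (wdg_natDegree hab h.hu h.hv t.1)
    have e2 : (pol fun l : Fin (d + 1) => mv d u v c (t.2, l)) = cub u v c t.2 := by
      rw [f2]
      exact pol_coeff_self (m := d) (cub u v c t.2) (cub_natDegree h t.2)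
    rw [e1, e2, wdg_eval, cub_eval]
    unfold ptX
    ring

theorem stmMem : StmMem := by
  intro k _ _ N e d a b hab
  have key : ∀ (u v : Fin N → k[X]) (c : Fin 4 → k[X]), Bd a b d u v c → Gd a b d u v c →
      ∃ γ, Rep γ (cv e d u v c) := by
    intro u v c h hg
    apply exists_rep
    intro h0
    obtain ⟨r, u0, v0, c0, hr, hne, hv⟩ := value hab h hg ![1, 0] (by
      intro h1
      exact one_ne_zero (congrFun h1 0))
    rw [h0] at hv
    apply hne
    have h2 : biforms (0 : (Sg N × Fin (e + 1)) × (Ta N × Fin (d + 1)) → k) ![1, 0] = 0 := by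
      funext t
      unfold biforms
      simp
    rw [h2] at hv
    have h3 := congrArg (fun w => r⁻¹ • w) hv
    simp only [smul_zero, smul_smul, inv_mul_cancel₀ hr, one_smul] at h3
    exact h3.symm
  refine ⟨?_, key⟩
  rintro γ ⟨u, v, c, h, hg, hγ⟩
  refine ⟨⟨lv e u v, mv d u v c, hγ⟩, ?_⟩
  intro s hs
  obtain ⟨r, u0, v0, c0, hr, hne, hv⟩ := value hab h hg s hs
  obtain ⟨z, hz⟩ := exists_rep hne
  refine ⟨z, ⟨u0, v0, c0, hz⟩, ?_⟩
  rw [rep_biforms hγ, hv]
  exact hz.smul hr

end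

end Pool.Agent.Y198.MC
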