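import Pool.Agent.Y198.MC.Sec
import Pool.Agent.Y166.GM.Cone

/-! Statements of the lemmas. -/

set_option autoImplicit false
set_option linter.unusedSectionVars false

namespace Pool.Agent.Y198.MC

open MvPolynomial Pool.Agent.Y166.GM Pool.Agent.Y166.SM

/-! ### Group A: the varieties -/

/-- A1 -/
def StmVarX : Prop :=
  ∀ (k : Type) [Field k] [IsAlgClosed k] [CharZero k] (N : ℕ), 3 ≤ N →
    IsProjVar (XX k N) ∧ CoveredByAffine (XX k N) (2 * N - 1)

/-- A2 -/
def StmVarY : Prop :=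
  ∀ (k : Type) [Field k] [IsAlgClosed k] [CharZero k] (N : ℕ), 3 ≤ N →
    IsProjVar (YY k N) ∧ CoveredByAffine (YY k N) (2 * N - 1)

/-- A3: the covering. -/
def StmCov : Prop :=
  ∀ (k : Type) [Field k] [IsAlgClosed k] [CharZero k] (N : ℕ), 3 ≤ N →
    IsMorphism (YY k N) (cov k N) ∧ Set.MapsTo (cov k N) (YY k N) (XX k N) ∧
    (∀ (u v : Fin N → k) (x : Fin 2 → k) (q : Fin 3 → k) (y : PP k (Co N)),
      Rep y (ptY u v x q) → Rep (cov k N y) (ptX u v (mulc x q))) ∧
    (∀ x ∈ XX k N, {y | y ∈ YY k N ∧ cov k N y = x}.Nonempty ∧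
      {y | y ∈ YY k N ∧ cov k N y = x}.encard ≤ 3) ∧
    ∃ x ∈ XX k N, {y | y ∈ YY k N ∧ cov k N y = x}.encard = 3

/-- A4: the nef cone of curves of `X`. -/
def StmNefX : Prop :=
  ∀ (k : Type) [Field k] [IsAlgClosed k] [CharZero k] (N : ℕ), 3 ≤ N →
    nefX k N = {β | 0 ≤ β.1 ∧ 3 * β.1 ≤ 2 * β.2}

/-- A5: the invariants of `Y`. -/
def StmInvY : Prop :=
  ∀ (k : Type) [Field k] [IsAlgClosed k] [CharZero k] (N : ℕ), 6 ≤ N →
    aY k N = 1 ∧ ¬ kapY k N ∧ Set.InjOn push (faceY k N)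

/-! ### Group B: the strata -/

section
variable {A : Type} [CommRing A] {N : ℕ}

/-- The coefficients of the curve of bidegree `(e, d)`. -/
noncomputable def cv (e d : ℕ) (u v : Fin N → Polynomial A) (c : Fin 4 → Polynomial A) :
    (Sg N × Fin (e + 1)) × (Ta N × Fin (d + 1)) → A :=
  fun x => (wdg u v x.1.1).coeff x.1.2 * (cub u v c x.2.1).coeff x.2.2

/-- The bounds for the degrees. -/
structure Bd (a b d : ℕ) (u v : Fin N → Polynomial A) (c : Fin 4 → Polynomial A) : Prop where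
  hu : ∀ i, (u i).natDegree ≤ a
  hv : ∀ i, (v i).natDegree ≤ b
  hc : ∀ i : Fin 4, c i ≠ 0 → (c i).natDegree + ((3 - (i : ℕ)) * a + i * b) ≤ d

/-- The curve is well defined at all points of the projective line. -/
structure Gd (a b d : ℕ) (u v : Fin N → Polynomial A) (c : Fin 4 → Polynomial A) : Prop where
  fin : ∀ t : A, wdg (fun i => (u i).eval t) (fun i => (v i).eval t) ≠ 0
  inf : wdg (fun i => (u i).coeff a) (fun i => (v i).coeff b) ≠ 0
  cfin : ∀ t : A, ∃ i, (c i).eval t ≠ 0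
  cinf : ∃ i : Fin 4, (3 - (i : ℕ)) * a + i * b ≤ d ∧ (c i).coeff (d - ((3 - (i : ℕ)) * a + i * b)) ≠ 0

end

section
variable (k : Type) [Field k] (N : ℕ)

/-- The curves of bidegree `(e, d)` such that the plane bundle has the splitting type `(a, b)`. -/
def Strat (e d a b : ℕ) : Set (PP k ((Sg N × Fin (e + 1)) × (Ta N × Fin (d + 1)))) :=
  {γ | ∃ (u v : Fin N → Polynomial k) (c : Fin 4 → Polynomial k), Bd a b d u v c ∧
    Gd a b d u v c ∧ Rep γ (cv e d u v c)}

/-- The curves of bidegree `(m + n, m + 2 n)` of the second family. -/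
def Str2 (m n : ℕ) : Set (PP k ((Sg N × Fin (m + n + 1)) × (Ta N × Fin (m + 2 * n + 1)))) :=
  {γ | ∃ (u v : Fin N → Polynomial k) (f : Polynomial k),
    Bd m n (m + 2 * n) u v ![f, 0, 1, 0] ∧ Gd m n (m + 2 * n) u v ![f, 0, 1, 0] ∧
      Rep γ (cv (m + n) (m + 2 * n) u v ![f, 0, 1, 0])}

end

/-- B1: the points of the strata are morphisms. -/
def StmMem : Prop :=
  ∀ (k : Type) [Field k] [IsAlgClosed k] (N e d a b : ℕ), a + b = e →
    Strat k N e d a b ⊆ MorBi (XX k N) e d ∧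
    (∀ (u v : Fin N → Polynomial k) (c : Fin 4 → Polynomial k), Bd a b d u v c → Gd a b d u v c →
      ∃ γ, Rep γ (cv e d u v c))

/-- B2: every morphism lies in a stratum. -/
def StmNF : Prop :=
  ∀ (k : Type) [Field k] [IsAlgClosed k] [CharZero k] (N e d : ℕ),
    ∀ γ ∈ MorBi (XX k N) e d, ∃ a b, a + b = e ∧ a ≤ b ∧ γ ∈ Strat k N e d a b

/-- B3: the general stratum is irreducible. -/
def StmIrr1 : Prop :=
  ∀ (k : Type) [Field k] [IsAlgClosed k] [CharZero k] (N e d a b : ℕ), 3 ≤ N → a + b = e →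
    a ≤ b → 3 * b ≤ d → IsIrreducible (Strat k N e d a b)

/-- B4: the second family is irreducible. -/
def StmIrr2 : Prop :=
  ∀ (k : Type) [Field k] [IsAlgClosed k] [CharZero k] (N m n : ℕ), 3 ≤ N → m ≤ n →
    IsIrreducible (Str2 k N m n)

/-- B5: the second family is dense in its stratum. -/
def StmDense2 : Prop :=
  ∀ (k : Type) [Field k] [IsAlgClosed k] [CharZero k] (N m n : ℕ), 3 ≤ N → m < n →
    Strat k N (m + n) (m + 2 * n) m n ⊆ closure (Str2 k N m n)

/-- B6: the splitting type is semicontinuous. -/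
def StmSep : Prop :=
  ∀ (k : Type) [Field k] [IsAlgClosed k] (N e d a b a' b' : ℕ), a + b = e → a ≤ b → a' + b' = e →
    a' ≤ b' → ∀ γ, γ ∈ Strat k N e d a b → γ ∈ closure (Strat k N e d a' b') → a ≤ a'

/-- B7: a count of transcendence degrees. -/
def StmTr1 : Prop :=
  ∀ (k σ P₁ P₂ : Type) [Field k] [CharZero k] [Fintype σ] [Fintype P₁] [Fintype P₂]
    (Ψ₁ : σ → MvPolynomial P₁ k) (Ψ₂ : σ → MvPolynomial P₂ k),
    Fintype.card P₁ ≤ Fintype.card P₂ →
    (∀ D : Derivation k (FractionRing (MvPolynomial P₂ k)) (FractionRing (MvPolynomial P₂ k)),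
      (∀ s, D (algebraMap (MvPolynomial P₂ k) _ (Ψ₂ s)) = 0) → D = 0) →
    (∀ F : MvPolynomial σ k, aeval Ψ₁ F = 0 → aeval Ψ₂ F = 0) →
    ∀ F : MvPolynomial σ k, aeval Ψ₂ F = 0 → aeval Ψ₁ F = 0

/-- B8: derivations which kill a curve of the second family kill its parameters. -/
def StmDer : Prop :=
  ∀ (K : Type) [Field K] [CharZero K] (N : ℕ) (D : Derivation ℤ K K)
    (u v : Fin N → Polynomial K) (f : Polynomial K), wdg u v ≠ 0 →
    (∀ s i, D ((wdg u v s).coeff i) = 0) →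
    (∀ t i, D ((cub u v ![f, 0, 1, 0] t).coeff i) = 0) →
    (∀ j i, D ((u j).coeff i) = 0) ∧ (∀ j i, D ((v j).coeff i) = 0) ∧ ∀ i, D (f.coeff i) = 0

/-- B9: normal forms. -/
def StmNorm : Prop :=
  ∀ (k : Type) [Field k] (N a b d : ℕ) (u v : Fin (N + 2) → Polynomial k)
    (c : Fin 4 → Polynomial k), a ≤ b → Bd a b d u v c → (u 0).coeff a ≠ 0 →
    (u 0).coeff a * (v 1).coeff b - (v 0).coeff b * (u 1).coeff a ≠ 0 →
    ∃ (u' v' : Fin (N + 2) → Polynomial k) (c' : Fin 4 → Polynomial k), Bd a b d u' v' c' ∧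
      wdg u' v' = wdg u v ∧ cub u' v' c' = cub u v c ∧ (u' 0).coeff a = 1 ∧
      (∀ i, a ≤ i → (v' 0).coeff i = 0) ∧ (a = b → (u' 1).coeff a = 0)

/-- B10: the second family is not contained in the closure of a stratum of larger type. -/
def StmTr : Prop :=
  ∀ (k : Type) [Field k] [IsAlgClosed k] [CharZero k] (N m n a b : ℕ), 3 ≤ N → m < a → a ≤ b →
    a + b = m + n → ¬ Str2 k N m n ⊆ closure (Strat k N (m + n) (m + 2 * n) a b)

/-- B11: degenerations of the splitting type. -/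
def StmDeg : Prop :=
  ∀ (k : Type) [Field k] [IsAlgClosed k] [CharZero k] (N e d a b : ℕ), 3 ≤ N → a + b = e →
    a + 2 ≤ b → 3 * b ≤ d + 1 → Strat k N e d a b ⊆ closure (Strat k N e d (a + 1) (b - 1))

/-! ### Group C: families of curves on other varieties -/

section
variable {k : Type} [Field k]

/-- A chart of the projective variety `Z`, isomorphic to an affine space. -/
structure IsChart {τ ι : Type} (Z : Set (PP k τ)) (j₀ : τ) (rr : ι → τ)
    (vv : τ → MvPolynomial ι k) : Prop where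
  one : vv j₀ = 1
  coord : ∀ i, vv (rr i) = X i
  mem : ∀ c : ι → k, ∃ z ∈ Z, Rep z (fun j => eval c (vv j))
  eq : ∀ z ∈ Z, ∀ v : τ → k, Rep z v → v j₀ ≠ 0 →
    ∀ j, v j = v j₀ * eval (fun i => v (rr i) / v j₀) (vv j)

/-- The coordinates on the charts of `X` and `Y`. -/
abbrev Ch (r : ℕ) : Type := (Fin r × Fin 2) ⊕ Fin 3

/-- The index of the coordinate which does not vanish on the chart. -/
def j0 (r : ℕ) : Co (r + 2) := ((0, 1), (0, 0, 0))

/-- The indices of the coordinates of the chart of `X`. -/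
def rrX (r : ℕ) : Ch r → Co (r + 2)
  | .inl (i, j) => (if j = 0 then (i.succ.succ, 1) else (0, i.succ.succ), (0, 0, 0))
  | .inr j => ((0, 1), ![(0, 0, 1), (0, 1, 1), (1, 1, 1)] j)

/-- The indices of the coordinates of the chart of `Y`. -/
def rrY (r : ℕ) : Ch r → Co (r + 2)
  | .inl (i, j) => (if j = 0 then (i.succ.succ, 1) else (0, i.succ.succ), (0, 0, 0))
  | .inr j => ((0, 1), ![(1, 0, 0), (0, 0, 1), (0, 1, 1)] j)

/-- The basis of the plane with the coordinates `x`. -/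
def U0 {A : Type} [CommRing A] {r : ℕ} (x : Ch r → A) : Fin (r + 2) → A :=
  Fin.cons 1 (Fin.cons 0 fun i => x (.inl (i, 0)))

/-- The basis of the plane with the coordinates `x`. -/
def V0 {A : Type} [CommRing A] {r : ℕ} (x : Ch r → A) : Fin (r + 2) → A :=
  Fin.cons 0 (Fin.cons 1 fun i => x (.inl (i, 1)))

/-- The coordinates on the chart of `X`. -/
noncomputable def vvX (k : Type) [Field k] (r : ℕ) : Co (r + 2) → MvPolynomial (Ch r) k :=
  ptX (U0 X) (V0 X) ![1, X (.inr 0), X (.inr 1), X (.inr 2)]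

/-- The coordinates on the chart of `Y`. -/
noncomputable def vvY (k : Type) [Field k] (r : ℕ) : Co (r + 2) → MvPolynomial (Ch r) k :=
  ptY (U0 X) (V0 X) ![1, X (.inr 0)] ![1, X (.inr 1), X (.inr 2)]

/-- The indices of the parameters of a family of polynomial curves in an affine space. -/
abbrev Ix {M : Type} (num : M → ℕ) : Type := Σ j : M, Fin (num j)

/-- The curve with the parameters `c`. -/
noncomputable def yP {A M : Type} [CommRing A] {num : M → ℕ} (c : Ix num → A) (j : M) :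
    Polynomial A := ∑ p : Fin (num j), Polynomial.C (c ⟨j, p⟩) * Polynomial.X ^ (p : ℕ)

/-- The point of the curve with the parameters `c`. -/
def yv {A M : Type} [CommRing A] {num : M → ℕ} (c : Ix num → A) (t : A) (j : M) : A :=
  ∑ p : Fin (num j), c ⟨j, p⟩ * t ^ (p : ℕ)

/-- The coefficients of the curve in a family of curves on `X`. -/
noncomputable def cvF {A M : Type} [CommRing A] [Algebra k A] {N : ℕ} (e d : ℕ) {num : M → ℕ}
    (U V : Fin N → MvPolynomial M k) (Cc : Fin 4 → MvPolynomial M k) (c : Ix num → A) :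
    (Sg N × Fin (e + 1)) × (Ta N × Fin (d + 1)) → A :=
  cv e d (fun i => aeval (yP c) (U i)) (fun i => aeval (yP c) (V i)) (fun i => aeval (yP c) (Cc i))

end

/-- C1: charts. -/
def StmChart : Prop :=
  ∀ (k : Type) [Field k] [IsAlgClosed k] [CharZero k] (r : ℕ), 1 ≤ r →
    IsChart (XX k (r + 2)) (j0 r) (rrX r) (vvX k r) ∧
    IsChart (YY k (r + 2)) (j0 r) (rrY r) (vvY k r)

/-- C2: the core of the argument: a rational function with coefficients algebraic over the field of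
the parameters, which is algebraic over the field of the point of the curve at two generic
values of the parameter, is a rational function of this point. -/
def StmCore : Prop :=
  ∀ (k : Type) [Field k] [IsAlgClosed k] [CharZero k] (M : Type) [Fintype M] (num : M → ℕ),
    (∀ j, 2 ≤ num j) →
    ∃ (W : Type) (_ : Field W) (_ : Algebra k W) (_ : IsAlgClosed W) (c : Ix num → W) (t : Fin 2 → W),
      AlgebraicIndependent k (Sum.elim c t) ∧
      ∀ p q : Polynomial W,
        (∀ i, IsAlgebraic (IntermediateField.adjoin k (Set.range c)) (p.coeff i)) →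
        (∀ i, IsAlgebraic (IntermediateField.adjoin k (Set.range c)) (q.coeff i)) → q ≠ 0 →
        (∀ s, IsAlgebraic (IntermediateField.adjoin k (Set.range (yv c (t s))))
          (p.eval (t s) / q.eval (t s))) →
        p.eval (t 1) / q.eval (t 1) ∈ IntermediateField.adjoin k (Set.range (yv c (t 1)))

/-- C3: a generic point of a generically finite variety over a variety with a chart. -/
def StmFla : Prop :=
  ∀ (k τ ι : Type) [Field k] [IsAlgClosed k] [CharZero k] [Finite τ] [Finite ι] (Z : Set (PP k τ))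
    (j₀ : τ) (rr : ι → τ) (vv : τ → MvPolynomial ι k), IsChart Z j₀ rr vv →
    ∀ (W : Type) [Field W] [Algebra k W] (n : ℕ) (Y : Set (PP k (Fin (n + 1)))), IsClosed Y →
    IsIrreducible Y → ∀ (f : PP k (Fin (n + 1)) → PP k τ), Set.MapsTo f Y Z → GenFinite Y f →
    ∀ (m : ℕ) (F : τ → MvPolynomial (Fin (n + 1)) k), (∀ j, (F j).IsHomogeneous m) →
    ∀ (mP : ℕ) (P : MvPolynomial (Fin (n + 1)) k), P.IsHomogeneous mP →
    (∀ z ∈ Y, eval z.rep P ≠ 0 → Rep (f z) (fun j => eval z.rep (F j))) →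
    ∀ (i₀ : Fin (n + 1)) (y : Fin (n + 1) → W), (∀ Q ∈ coneIdeal Y, aeval y Q = 0) →
    aeval y P ≠ 0 → y i₀ ≠ 0 → aeval y (F j₀) ≠ 0 →
    AlgebraicIndependent k (fun i => aeval y (F (rr i)) / aeval y (F j₀)) →
    (∀ i, IsAlgebraic (IntermediateField.adjoin k
      (Set.range (fun i => aeval y (F (rr i)) / aeval y (F j₀)))) (y i / y i₀)) ∧
    ∀ (l : ℕ) (Q : MvPolynomial (Fin (n + 1)) k), Q.IsHomogeneous l → aeval y Q = 0 →
      Q ∈ coneIdeal Y

/-- C4: varieties whose generic points have the same field are birational. -/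
def StmBir : Prop :=
  ∀ (k ρ ρ' τ : Type) [Field k] [IsAlgClosed k] [CharZero k] [Finite ρ] [Finite ρ'] [Finite τ]
    (W : Type) [Field W] [Algebra k W] (Y : Set (PP k ρ)) (Y' : Set (PP k ρ')), IsClosed Y →
    IsClosed Y' → ∀ (f : PP k ρ → PP k τ) (f' : PP k ρ' → PP k τ),
    ∀ (m : ℕ) (F : τ → MvPolynomial ρ k), (∀ j, (F j).IsHomogeneous m) →
    ∀ (mP : ℕ) (P : MvPolynomial ρ k), P.IsHomogeneous mP →
    (∀ z ∈ Y, eval z.rep P ≠ 0 → Rep (f z) (fun j => eval z.rep (F j))) →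
    ∀ (m' : ℕ) (F' : τ → MvPolynomial ρ' k), (∀ j, (F' j).IsHomogeneous m') →
    ∀ (mP' : ℕ) (P' : MvPolynomial ρ' k), P'.IsHomogeneous mP' →
    (∀ z ∈ Y', eval z.rep P' ≠ 0 → Rep (f' z) (fun j => eval z.rep (F' j))) →
    ∀ (i₀ : ρ) (y : ρ → W) (i₀' : ρ') (y' : ρ' → W), y i₀ ≠ 0 → y' i₀' ≠ 0 →
    aeval y P ≠ 0 → aeval y' P' ≠ 0 →
    (∀ (l : ℕ) (Q : MvPolynomial ρ k), Q.IsHomogeneous l → (aeval y Q = 0 ↔ Q ∈ coneIdeal Y)) →
    (∀ (l : ℕ) (Q : MvPolynomial ρ' k), Q.IsHomogeneous l →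
      (aeval y' Q = 0 ↔ Q ∈ coneIdeal Y')) →
    (∀ i, y i / y i₀ ∈ IntermediateField.adjoin k (Set.range fun j => y' j / y' i₀')) →
    (∀ i, y' i / y' i₀' ∈ IntermediateField.adjoin k (Set.range fun j => y j / y i₀)) →
    (∀ a b, aeval y (F a) * aeval y' (F' b) = aeval y (F b) * aeval y' (F' a)) →
    BirOver Y f Y' f'

/-- C5: a family of curves on a generically finite variety over `X` which dominates the family of
curves `T` on `X` with the parameters `c`. -/
def StmGen : Prop :=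
  ∀ (k : Type) [Field k] [IsAlgClosed k] [CharZero k] (r e d : ℕ) (M : Type) [Fintype M]
    (num : M → ℕ), (∀ j, 2 ≤ num j) →
    ∀ (U V : Fin (r + 2) → MvPolynomial M k) (Cc : Fin 4 → MvPolynomial M k)
      (T : Set (PP k ((Sg (r + 2) × Fin (e + 1)) × (Ta (r + 2) × Fin (d + 1))))),
    -- the degrees
    (∀ c : Ix num → k, ∀ s, (wdg (fun i => aeval (yP c) (U i)) (fun i => aeval (yP c) (V i))
      s).natDegree ≤ e) →
    (∀ c : Ix num → k, ∀ t, (cub (fun i => aeval (yP c) (U i)) (fun i => aeval (yP c) (V i))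
      (fun i => aeval (yP c) (Cc i)) t).natDegree ≤ d) →
    T ⊆ MorBi (XX k (r + 2)) e d →
    T ⊆ closure {γ | γ ∈ T ∧ ∃ c : Ix num → k, Rep γ (cvF e d U V Cc c)} →
    (∃ P₀ : MvPolynomial (Ix num) k, P₀ ≠ 0 ∧ ∀ c : Ix num → k, eval c P₀ ≠ 0 →
      ∃ γ ∈ T, Rep γ (cvF e d U V Cc c)) →
    -- the chart coordinates are independent at the generic point
    ptX U V Cc (j0 r) ≠ 0 →
    (∀ (W : Type) [Field W] [Algebra k W] (y : M → W), AlgebraicIndependent k y →
      AlgebraicIndependent k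
        (fun i => aeval y (ptX U V Cc (rrX r i)) / aeval y (ptX U V Cc (j0 r)))) →
    -- the variety
    ∀ (n : ℕ) (Y : Set (PP k (Fin (n + 1)))), IsProjVar Y →
    ∀ (f : PP k (Fin (n + 1)) → PP k (Co (r + 2))), IsMorphism Y f →
    Set.MapsTo f Y (XX k (r + 2)) → GenFinite Y f →
    ∀ (e₁ : ℕ) (Ns : Set (PP k (Fin (n + 1) × Fin (e₁ + 1)))), Ns ⊆ Mor Y e₁ →
    (∀ (m : ℕ) (P : MvPolynomial ((Sg (r + 2) × Fin (e + 1)) × (Ta (r + 2) × Fin (d + 1))) k),
      P.IsHomogeneous m → (∀ γ ∈ T, (∃ g ∈ Ns, IsCompBi f g γ) → eval γ.rep P = 0) →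
      ∀ γ ∈ T, eval γ.rep P = 0) →
    -- a generic point of the variety
    ∃ (W : Type) (_ : Field W) (_ : Algebra k W) (y : M → W) (z : Fin (n + 1) → W)
      (m : ℕ) (F : Co (r + 2) → MvPolynomial (Fin (n + 1)) k) (mP : ℕ)
      (P : MvPolynomial (Fin (n + 1)) k) (i₀ : Fin (n + 1)),
      AlgebraicIndependent k y ∧ (∀ j, (F j).IsHomogeneous m) ∧ P.IsHomogeneous mP ∧
      (∀ z ∈ Y, eval z.rep P ≠ 0 → Rep (f z) (fun j => eval z.rep (F j))) ∧
      (∀ Q ∈ coneIdeal Y, aeval z Q = 0) ∧ aeval z P ≠ 0 ∧ z i₀ ≠ 0 ∧ aeval z (F (j0 r)) ≠ 0 ∧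
      (∀ a b, aeval z (F a) * aeval y (ptX U V Cc b) = aeval z (F b) * aeval y (ptX U V Cc a)) ∧
      ∀ i, z i / z i₀ ∈ IntermediateField.adjoin k (Set.range y)

/-- C6: the function field of `X` is algebraically closed in the field of the parameters of its
cone; `u`, `v`, `c` are independent. -/
def StmAlg1 : Prop :=
  ∀ (k W : Type) [Field k] [CharZero k] [Field W] [Algebra k W] (r : ℕ)
    (u v : Fin (r + 2) → W) (c : Fin 4 → W),
    AlgebraicIndependent k (Sum.elim u (Sum.elim v c)) →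
    AlgebraicIndependent k (fun i => ptX u v c (rrX r i) / ptX u v c (j0 r)) ∧
    ptX u v c (j0 r) ≠ 0 ∧
    ∀ θ ∈ IntermediateField.adjoin k (Set.range (Sum.elim u (Sum.elim v c))),
      IsAlgebraic (IntermediateField.adjoin k
        (Set.range fun i => ptX u v c (rrX r i) / ptX u v c (j0 r))) θ →
      θ ∈ IntermediateField.adjoin k (Set.range fun i => ptX u v c (rrX r i) / ptX u v c (j0 r))

/-- C7: the same for `Y` and the parameters `u`, `v`, `f` of the second family. -/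
def StmAlg2 : Prop :=
  ∀ (k W : Type) [Field k] [CharZero k] [Field W] [Algebra k W] (r : ℕ)
    (u v : Fin (r + 2) → W) (f : W),
    AlgebraicIndependent k (Sum.elim u (Sum.elim v fun _ : Unit => f)) →
    AlgebraicIndependent k
      (fun i => ptY u v ![1, 0] ![f / 3, 0, 1] (rrY r i) / ptY u v ![1, 0] ![f / 3, 0, 1] (j0 r)) ∧
    ptY u v ![1, 0] ![f / 3, 0, 1] (j0 r) ≠ 0 ∧
    ∀ θ ∈ IntermediateField.adjoin k (Set.range (Sum.elim u (Sum.elim v fun _ : Unit => f))),
      IsAlgebraic (IntermediateField.adjoin k (Set.range fun i =>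
        ptY u v ![1, 0] ![f / 3, 0, 1] (rrY r i) / ptY u v ![1, 0] ![f / 3, 0, 1] (j0 r))) θ →
      θ ∈ IntermediateField.adjoin k (Set.range fun i =>
        ptY u v ![1, 0] ![f / 3, 0, 1] (rrY r i) / ptY u v ![1, 0] ![f / 3, 0, 1] (j0 r))

/-- C8: the covering `Y → X` has degree three, a prime number. -/
def StmDeg3 : Prop :=
  ∀ (k W : Type) [Field k] [CharZero k] [Field W] [Algebra k W] (r : ℕ)
    (u v : Fin (r + 2) → W) (x : Fin 2 → W) (q : Fin 3 → W),
    AlgebraicIndependent k (fun i => ptY u v x q (rrY r i) / ptY u v x q (j0 r)) →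
    ptY u v x q (j0 r) ≠ 0 →
    AlgebraicIndependent k (fun i => ptX u v (mulc x q) (rrX r i) / ptX u v (mulc x q) (j0 r)) ∧
    ptX u v (mulc x q) (j0 r) ≠ 0 ∧
    ∀ E : IntermediateField k W,
      IntermediateField.adjoin k
        (Set.range fun i => ptX u v (mulc x q) (rrX r i) / ptX u v (mulc x q) (j0 r)) ≤ E →
      E ≤ IntermediateField.adjoin k
        (Set.range fun i => ptY u v x q (rrY r i) / ptY u v x q (j0 r)) →
      E = IntermediateField.adjoin k
        (Set.range fun i => ptX u v (mulc x q) (rrX r i) / ptX u v (mulc x q) (j0 r)) ∨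
      E = IntermediateField.adjoin k
        (Set.range fun i => ptY u v x q (rrY r i) / ptY u v x q (j0 r))

/-- C9: the families of curves on other varieties which dominate the general family. -/
def StmLift1 : Prop :=
  ∀ (k : Type) [Field k] [IsAlgClosed k] [CharZero k] (N e d a b : ℕ), 3 ≤ N → a + b = e →
    1 ≤ a → a ≤ b → 3 * b + 1 ≤ d →
    ∀ (n : ℕ) (Y : Set (PP k (Fin (n + 1)))), IsProjVar Y →
    ∀ (f : PP k (Fin (n + 1)) → PP k (Co N)), IsMorphism Y f →
    Set.MapsTo f Y (XX k N) → GenFinite Y f →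
    ∀ (e₁ : ℕ) (Ns : Set (PP k (Fin (n + 1) × Fin (e₁ + 1)))), Ns ⊆ Mor Y e₁ →
    Strat k N e d a b ⊆ closure {γ | γ ∈ Strat k N e d a b ∧ ∃ g ∈ Ns, IsCompBi f g γ} →
    Birational Y (XX k N) f

/-- C10: the families of curves on other varieties which dominate the second family. -/
def StmLift2 : Prop :=
  ∀ (k : Type) [Field k] [IsAlgClosed k] [CharZero k] (N m n : ℕ), 3 ≤ N → 1 ≤ m → m < n →
    ∀ (n₁ : ℕ) (Y : Set (PP k (Fin (n₁ + 1)))), IsProjVar Y →
    ∀ (f : PP k (Fin (n₁ + 1)) → PP k (Co N)), IsMorphism Y f →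
    Set.MapsTo f Y (XX k N) → GenFinite Y f →
    ∀ (e₁ : ℕ) (Ns : Set (PP k (Fin (n₁ + 1) × Fin (e₁ + 1)))), Ns ⊆ Mor Y e₁ →
    Strat k N (m + n) (m + 2 * n) m n ⊆
      closure {γ | γ ∈ Strat k N (m + n) (m + 2 * n) m n ∧ ∃ g ∈ Ns, IsCompBi f g γ} →
    Birational Y (XX k N) f ∨ BirOver Y f (YY k N) (cov k N)

end Pool.Agent.Y198.MC
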