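import Pool.Agent.Y198.MC.Fin
import Pool.Agent.Y198.MC.Defs2
import Pool.Agent.Y198.MC.Mem
import Pool.Agent.Y198.MC.Dense
import Pool.Agent.Y215.MC.VarX
import Pool.Agent.Y215.MC.VarY
import Pool.Agent.Y406.MC.Cov
import Pool.Agent.Y550.MC.InvY
import Pool.Agent.Y550.MC.Deg3
import Pool.Agent.Y473.MC.NefX
import Pool.Agent.Y473.MC.Sep
import Pool.Agent.Y168.MC.NF
import Pool.Agent.Y442.MC.Irr
import Pool.Agent.Y442.MC.Tr
import Pool.Agent.Y467.MC.Tr1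
import Pool.Agent.Y467.MC.Norm
import Pool.Agent.Y762.MC.Deg
import Pool.Agent.Y930.MC.Chart
import Pool.Agent.Y841.MC.Alg1
import Pool.Agent.Y841.MC.Alg2
import Pool.Agent.Y166.MC.Bir
import Pool.Agent.Y166.MC.Gen
import Pool.Agent.Y166.MC.Core
import Pool.Agent.Y794.MC.Lift2
import Pool.Agent.Y76.MC.Lift1

/-! All the lemmas together. -/

set_option autoImplicit false

namespace Pool.Agent.Y198.MC

open MvPolynomial Pool.Agent.Y166.GM Pool.Agent.Y166.SM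

theorem tTr : StmTr := Pool.Agent.Y442.MC.done Pool.Agent.Y467.MC.Tr1.done stmDer
  Pool.Agent.Y467.MC.Norm.done Pool.Agent.Y473.MC.done stmMem

theorem tGen : Pool.Agent.Y166.MC.StmGenR :=
  Pool.Agent.Y166.MC.stmGenR Pool.Agent.Y166.MC.stmCore Pool.Agent.Y930.MC.Chart.done

theorem tLift2 : StmLift2 := Pool.Agent.Y794.MC.Lift2.done stmMem stmDense2 tGen
  Pool.Agent.Y166.MC.stmBir Pool.Agent.Y841.MC.Alg2.done Pool.Agent.Y550.MC.done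
  Pool.Agent.Y930.MC.Chart.done Pool.Agent.Y406.MC.Cov.done Pool.Agent.Y215.MC.Y.done

theorem tLift1 : StmLift1 := Pool.Agent.Y76.MC.Lift1.done stmMem tGen
  Pool.Agent.Y841.MC.Alg1.done Pool.Agent.Y930.MC.Chart.done

section
variable {k : Type} [Field k] [IsAlgClosed k] [CharZero k] {N : ℕ}

theorem two (hN : 6 ≤ N) (I : Pool.Agent.Y166.GM.Invariants (XX k N))
    (hA : Adapted k N I) (e d : ℕ) (h1 : 3 * e + 5 ≤ 2 * d) (h2 : d + 1 ≤ 2 * e) :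
    2 ≤ (maninBi I e d).encard := by
  obtain ⟨m, hm⟩ : ∃ m, 2 * e = d + m := ⟨2 * e - d, by omega⟩
  obtain ⟨n, hn⟩ : ∃ n, d = e + n := ⟨d - e, by omega⟩
  have he : e = m + n := by omega
  have hd : d = m + 2 * n := by omega
  subst he
  rw [hd]
  exact two_manin stmMem Pool.Agent.Y168.MC.done Pool.Agent.Y442.MC.done1 Pool.Agent.Y442.MC.done2
    stmDense2 Pool.Agent.Y473.MC.done tTr Pool.Agent.Y550.MC.InvY.done tLift1 tLift2 hN I hA m n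
    (by omega) (by omega)

theorem one (hN : 3 ≤ N) (e d : ℕ) (hd : 3 * e ≤ d) (A : Set (Set (MorBi (XX k N) e d)))
    (hA : A ⊆ irreducibleComponents (MorBi (XX k N) e d)) : A.encard ≤ 1 :=
  le_one stmMem Pool.Agent.Y168.MC.done Pool.Agent.Y442.MC.done1 Pool.Agent.Y473.MC.done
    Pool.Agent.Y762.MC.done hN e d hd A hA

/-- Adapted data exist. -/
theorem exists_adapted (hN : 6 ≤ N) : ∃ I : Pool.Agent.Y166.GM.Invariants (XX k N),
    Adapted k N I := by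
  obtain ⟨h1, h2, h3⟩ := Pool.Agent.Y550.MC.InvY.done k N hN
  refine ⟨⟨fun _ _ => 1, fun _ _ => False, fun _ _ => False, fun _ _ _ _ _ _ => rfl⟩, ?_⟩
  intro n Y f _ _ _ _
  refine ⟨h1.symm, ⟨False.elim, fun h => h2 h⟩, ⟨False.elim, fun h => h h3⟩⟩

/-- The classes. -/
theorem exists_class (α : ℤ × ℤ) : ∃ e d : ℕ, 3 * e + 5 ≤ 2 * d ∧ d + 1 ≤ 2 * e ∧
    (0 : ℝ) ≤ (e : ℝ) - α.1 ∧ 3 * ((e : ℝ) - α.1) ≤ 2 * ((d : ℝ) - α.2) := by
  set m : ℕ := 1 + α.1.natAbs with hm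
  set n : ℕ := m + 5 + (2 * α.2 - 3 * α.1).natAbs with hn
  refine ⟨m + n, m + 2 * n, by omega, by omega, ?_, ?_⟩
  · have h : (α.1 : ℤ) ≤ ((m + n : ℕ) : ℤ) := by omega
    have h' : ((α.1 : ℤ) : ℝ) ≤ (((m + n : ℕ) : ℤ) : ℝ) := by exact_mod_cast h
    push_cast at h' ⊢
    linarith
  · have h : 3 * (((m + n : ℕ) : ℤ) - α.1) ≤ 2 * (((m + 2 * n : ℕ) : ℤ) - α.2) := by omega
    have h' : ((3 * (((m + n : ℕ) : ℤ) - α.1) : ℤ) : ℝ) ≤
        ((2 * (((m + 2 * n : ℕ) : ℤ) - α.2) : ℤ) : ℝ) := by exact_mod_cast h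
    push_cast at h' ⊢
    linarith

/-- A class in the other part of the cone. -/
theorem exists_class' (α : ℤ × ℤ) : ∃ e d : ℕ, 3 * e ≤ d ∧
    (0 : ℝ) ≤ (e : ℝ) - α.1 ∧ 3 * ((e : ℝ) - α.1) ≤ 2 * ((d : ℝ) - α.2) := by
  set e : ℕ := α.1.natAbs with he
  set d : ℕ := 3 * e + (2 * α.2 - 3 * α.1).natAbs with hd
  refine ⟨e, d, by omega, ?_, ?_⟩
  · have h : (α.1 : ℤ) ≤ ((e : ℕ) : ℤ) := by omega
    have h' : ((α.1 : ℤ) : ℝ) ≤ (((e : ℕ) : ℤ) : ℝ) := by exact_mod_cast h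
    push_cast at h' ⊢
    linarith
  · have h : 3 * (((e : ℕ) : ℤ) - α.1) ≤ 2 * (((d : ℕ) : ℤ) - α.2) := by omega
    have h' : ((3 * (((e : ℕ) : ℤ) - α.1) : ℤ) : ℝ) ≤
        ((2 * (((d : ℕ) : ℤ) - α.2) : ℤ) : ℝ) := by exact_mod_cast h
    push_cast at h' ⊢
    linarith

end

end Pool.Agent.Y198.MC
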