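import Mathlib

/-! Topological lemmas on components of finite unions. -/

set_option autoImplicit false

namespace Pool.Agent.Y198.MC

section
variable {T ι : Type} [TopologicalSpace T] [Finite ι]

/-- An irreducible set contained in a finite union of closed sets is contained in one of them. -/
theorem irr_cover {Z : Set T} (hZ : IsIrreducible Z) (C : ι → Set T) (hC : ∀ i, IsClosed (C i))
    (h : Z ⊆ ⋃ i, C i) : ∃ i, Z ⊆ C i := by
  have := (isIrreducible_iff_sUnion_isClosed.1 hZ) ((Set.finite_range C).toFinset) (by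
    intro z hz
    rw [Set.Finite.mem_toFinset] at hz
    obtain ⟨i, rfl⟩ := hz
    exact hC i) (by
    intro x hx
    obtain ⟨i, hi⟩ := Set.mem_iUnion.1 (h hx)
    rw [Set.mem_sUnion]
    refine ⟨_, ?_, hi⟩
    rw [Finset.mem_coe, Set.Finite.mem_toFinset]
    exact ⟨i, rfl⟩)
  obtain ⟨z, hz, hZz⟩ := this
  rw [Set.Finite.mem_toFinset] at hz
  obtain ⟨i, rfl⟩ := hz
  exact ⟨i, hZz⟩

variable (S : Set T) (M : ι → Set T) (hMS : ∀ i, M i ⊆ S) (hS : S ⊆ ⋃ i, M i) (i₀ : ι)
  (hirr : IsIrreducible (M i₀)) (hsep : ∀ j, j ≠ i₀ → ¬ M i₀ ⊆ closure (M j))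

include hMS hS hirr hsep in
/-- The closure of a stratum which is not contained in the closures of the other strata is an
irreducible component. -/
theorem comp_mem : (Subtype.val ⁻¹' closure (M i₀) : Set S) ∈ irreducibleComponents S := by
  have hCirr : IsIrreducible (Subtype.val ⁻¹' closure (M i₀) : Set S) := by
    have h1 : IsIrreducible (Subtype.val ⁻¹' (M i₀) : Set S) := by
      refine ⟨?_, ?_⟩
      · obtain ⟨x, hx⟩ := hirr.1
        exact ⟨⟨x, hMS i₀ hx⟩, hx⟩
      · rintro U V hU hV ⟨p, hp, hpU⟩ ⟨q, hq, hqV⟩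
        obtain ⟨U', hU', rfl⟩ := isOpen_induced_iff.1 hU
        obtain ⟨V', hV', rfl⟩ := isOpen_induced_iff.1 hV
        obtain ⟨r, hr, hrU, hrV⟩ := hirr.2 U' V' hU' hV' ⟨p, hp, hpU⟩ ⟨q, hq, hqV⟩
        exact ⟨⟨r, hMS i₀ hr⟩, hr, hrU, hrV⟩
    have h2 : closure (Subtype.val ⁻¹' (M i₀) : Set S) = Subtype.val ⁻¹' closure (M i₀) := by
      rw [Topology.IsInducing.subtypeVal.closure_eq_preimage_closure_image]
      rw [Subtype.image_preimage_coe, Set.inter_eq_self_of_subset_right (hMS i₀)]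
    rw [← h2]
    exact h1.closure
  refine ⟨hCirr, fun Z hZ hle => ?_⟩
  obtain ⟨i, hi⟩ := irr_cover hZ (fun i => (Subtype.val ⁻¹' closure (M i) : Set S))
    (fun i => isClosed_closure.preimage continuous_subtype_val) (by
      intro x _
      obtain ⟨i, hi⟩ := Set.mem_iUnion.1 (hS x.2)
      exact Set.mem_iUnion.2 ⟨i, subset_closure hi⟩)
  by_cases hne : i = i₀
  · subst hne
    exact hi
  · exfalso
    apply hsep i hne
    intro x hx
    exact hi (hle (show (⟨x, hMS i₀ hx⟩ : S) ∈ Subtype.val ⁻¹' closure (M i₀) from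
      subset_closure hx))

include hMS hS hirr hsep in
/-- A dense subset of the component meets the stratum in a dense subset of the stratum. -/
theorem comp_dense (L : Set S)
    (hL : (Subtype.val ⁻¹' closure (M i₀) : Set S) ⊆
      closure {h | h ∈ (Subtype.val ⁻¹' closure (M i₀) : Set S) ∧ h ∈ L}) :
    M i₀ ⊆ closure {x | x ∈ M i₀ ∧ ∃ h ∈ L, h.1 = x} := by
  classical
  set D : Set T := closure {x | x ∈ M i₀ ∧ ∃ h ∈ L, h.1 = x} with hD
  have h1 : ∀ x ∈ M i₀, x ∈ D ∪ ⋃ j : {j // j ≠ i₀}, closure (M j) := by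
    intro x hx
    have h2 : (⟨x, hMS i₀ hx⟩ : S) ∈ closure {h | h ∈ (Subtype.val ⁻¹' closure (M i₀) : Set S) ∧
      h ∈ L} := hL (show (⟨x, hMS i₀ hx⟩ : S) ∈ Subtype.val ⁻¹' closure (M i₀) from
        subset_closure hx)
    have h3 : IsClosed (D ∪ ⋃ j : {j // j ≠ i₀}, closure (M j)) :=
      isClosed_closure.union (isClosed_iUnion_of_finite fun j => isClosed_closure)
    have h4 : {h | h ∈ (Subtype.val ⁻¹' closure (M i₀) : Set S) ∧ h ∈ L} ⊆
        Subtype.val ⁻¹' (D ∪ ⋃ j : {j // j ≠ i₀}, closure (M j)) := by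
      rintro h ⟨_, hhL⟩
      obtain ⟨i, hi⟩ := Set.mem_iUnion.1 (hS h.2)
      by_cases hne : i = i₀
      · subst hne
        exact Or.inl (subset_closure ⟨hi, h, hhL, rfl⟩)
      · exact Or.inr (Set.mem_iUnion.2 ⟨⟨i, hne⟩, subset_closure hi⟩)
    exact closure_minimal h4 (h3.preimage continuous_subtype_val) h2
  obtain ⟨i, hi⟩ := irr_cover hirr (fun o : Option {j // j ≠ i₀} =>
      Option.elim o D fun j => closure (M j)) (by
      intro o
      rcases o with _ | j
      · exact isClosed_closure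
      · exact isClosed_closure) (by
      intro x hx
      rcases h1 x hx with h | h
      · exact Set.mem_iUnion.2 ⟨none, h⟩
      · obtain ⟨j, hj⟩ := Set.mem_iUnion.1 h
        exact Set.mem_iUnion.2 ⟨some j, hj⟩)
  rcases i with _ | j
  · exact hi
  · exact absurd hi (hsep j.1 j.2)

end

end Pool.Agent.Y198.MC
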