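import Pool.Agent.Y198.MC.Stm
import Pool.Agent.Y198.MC.Top

/-! The assembly. -/

set_option autoImplicit false
set_option linter.unusedSectionVars false

namespace Pool.Agent.Y198.MC

open MvPolynomial Pool.Agent.Y166.GM Pool.Agent.Y166.SM

/-- The indices of the strata. -/
abbrev St (e : ℕ) : Type := {a : Fin (e + 1) // 2 * (a : ℕ) ≤ e}

section
variable {k : Type} [Field k] [IsAlgClosed k] [CharZero k] {N : ℕ}

/-- The strata. -/
def stM (k : Type) [Field k] (N e d : ℕ) (i : St e) :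
    Set (PP k ((Sg N × Fin (e + 1)) × (Ta N × Fin (d + 1)))) :=
  Strat k N e d i.1 (e - i.1)

/-- The index of a stratum. -/
def ist (e a : ℕ) (h : 2 * a ≤ e) : St e := ⟨⟨a, by omega⟩, h⟩

theorem str2_sub (N m n : ℕ) : Str2 k N m n ⊆ Strat k N (m + n) (m + 2 * n) m n := by
  rintro γ ⟨u, v, f, h1, h2, h3⟩
  exact ⟨u, v, _, h1, h2, h3⟩

theorem st_sub (hMem : StmMem) (N e d : ℕ) (i : St e) : stM k N e d i ⊆ MorBi (XX k N) e d := by
  have hi := i.2
  exact (hMem k N e d i.1 (e - i.1) (by omega)).1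

theorem st_cov (hNF : StmNF) (N e d : ℕ) : MorBi (XX k N) e d ⊆ ⋃ i : St e, stM k N e d i := by
  intro γ hγ
  obtain ⟨a, b, hab, hle, h⟩ := hNF k N e d γ hγ
  refine Set.mem_iUnion.2 ⟨ist e a (by omega), ?_⟩
  have hb : b = e - a := by omega
  subst hb
  exact h

theorem strat2_irr (hI2 : StmIrr2) (hD2 : StmDense2) (N m n : ℕ) (hN : 3 ≤ N) (hmn : m < n) :
    IsIrreducible (Strat k N (m + n) (m + 2 * n) m n) := by
  have h1 := hI2 k N m n hN hmn.le
  have h2 := hD2 k N m n hN hmn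
  refine ⟨h1.1.mono (str2_sub N m n), ?_⟩
  rintro U V hU hV ⟨p, hp, hpU⟩ ⟨q, hq, hqV⟩
  obtain ⟨p', hp'U, hp'⟩ := mem_closure_iff.1 (h2 hp) U hU hpU
  obtain ⟨q', hq'V, hq'⟩ := mem_closure_iff.1 (h2 hq) V hV hqV
  obtain ⟨r, hr, hr'⟩ := h1.2 U V hU hV ⟨p', hp', hp'U⟩ ⟨q', hq', hq'V⟩
  exact ⟨r, str2_sub N m n hr, hr'⟩

/-- Conditions under which a stratum gives a component. -/
structure Good (k : Type) [Field k] (N e d : ℕ) (i : St e) : Prop where
  irr : IsIrreducible (stM k N e d i)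
  sep : ∀ j, j ≠ i → ¬ stM k N e d i ⊆ closure (stM k N e d j)

theorem good1 (hS : StmSep) (hI1 : StmIrr1) (N e d a : ℕ) (hN : 3 ≤ N) (h1 : 2 * a ≤ e)
    (h2 : e ≤ 2 * a + 1) (h3 : 3 * (e - a) ≤ d) : Good k N e d (ist e a h1) := by
  have hirr : IsIrreducible (stM k N e d (ist e a h1)) :=
    hI1 k N e d a (e - a) hN (by omega) (by omega) h3
  refine ⟨hirr, ?_⟩
  rintro ⟨j, hj⟩ hne hsub
  obtain ⟨γ, hγ⟩ := hirr.1
  have h4 := hS k N e d a (e - a) j (e - j) (by omega) (by omega) (by have := j.2; omega)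
    (by omega) γ hγ (hsub hγ)
  apply hne
  apply Subtype.ext
  apply Fin.ext
  show (j : ℕ) = a
  omega

theorem good2 (hS : StmSep) (hI2 : StmIrr2) (hD2 : StmDense2) (hT : StmTr) (N m n : ℕ)
    (hN : 3 ≤ N) (hmn : m < n) (h : 2 * m ≤ m + n) :
    Good k N (m + n) (m + 2 * n) (ist (m + n) m h) := by
  have e1 : m + n - m = n := by omega
  have e2 : stM k N (m + n) (m + 2 * n) (ist (m + n) m h) =
      Strat k N (m + n) (m + 2 * n) m n := by
    show Strat k N (m + n) (m + 2 * n) m (m + n - m) = _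
    rw [e1]
  have hirr := strat2_irr (k := k) hI2 hD2 N m n hN hmn
  rw [← e2] at hirr
  refine ⟨hirr, ?_⟩
  rintro ⟨j, hj⟩ hne hsub
  rw [e2] at hsub
  by_cases hjm : m < j
  · exact hT k N m n j (m + n - j) hN hjm (by omega) (by have := j.2; omega)
      ((str2_sub N m n).trans hsub)
  · obtain ⟨γ, hγ⟩ := hirr.1
    rw [e2] at hγ
    have h4 := hS k N (m + n) (m + 2 * n) m n j (m + n - j) rfl hmn.le (by have := j.2; omega)
      (by omega) γ hγ (hsub hγ)
    apply hne
    apply Subtype.ext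
    apply Fin.ext
    show (j : ℕ) = m
    omega

/-- The component which is the closure of a stratum. -/
def cmp (k : Type) [Field k] (N e d : ℕ) (i : St e) : Set (MorBi (XX k N) e d) :=
  Subtype.val ⁻¹' closure (stM k N e d i)

theorem cmp_mem (hMem : StmMem) (hNF : StmNF) {N e d : ℕ} {i : St e} (hg : Good k N e d i) :
    cmp k N e d i ∈ irreducibleComponents (MorBi (XX k N) e d) :=
  comp_mem _ (stM k N e d) (st_sub hMem N e d) (st_cov hNF N e d) i hg.irr hg.sep

theorem cmp_ne {N e d : ℕ} (hMem : StmMem) {i j : St e} (hij : i ≠ j) (hg : Good k N e d i) :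
    cmp k N e d i ≠ cmp k N e d j := by
  intro h
  apply hg.sep j hij.symm
  intro x hx
  have h1 : (⟨x, st_sub hMem N e d i hx⟩ : MorBi (XX k N) e d) ∈ cmp k N e d i :=
    subset_closure hx
  rw [h] at h1
  exact h1

/-- Birational morphisms are not breaking. -/
theorem not_brk_bir (I : Pool.Agent.Y166.GM.Invariants (XX k N)) {n : ℕ}
    {Y : Set (PP k (Fin (n + 1)))} {f : PP k (Fin (n + 1)) → PP k (Co N)} (hY : IsProjVar Y)
    (hf : IsMorphism Y f) (hfX : Set.MapsTo f Y (XX k N)) (hb : Birational Y (XX k N) f) :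
    ¬ Breaking I Y f := by
  rintro (h1 | h1 | h1)
  · rw [I.a_birational Y f hY hf hfX hb] at h1
    exact lt_irrefl _ h1
  · exact h1.1.2.1 hb
  · exact h1.1.2.1 hb

/-- Morphisms birational to the covering are not breaking. -/
theorem not_brk_over (hInv : StmInvY) (hN : 6 ≤ N) (I : Pool.Agent.Y166.GM.Invariants (XX k N))
    (hA : Adapted k N I) {n : ℕ}
    {Y : Set (PP k (Fin (n + 1)))} {f : PP k (Fin (n + 1)) → PP k (Co N)} (hY : IsProjVar Y)
    (hf : IsMorphism Y f) (hfX : Set.MapsTo f Y (XX k N))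
    (hb : BirOver Y f (YY k N) (cov k N)) : ¬ Breaking I Y f := by
  obtain ⟨h1, h2, h3⟩ := hA n Y f hY hf hfX hb
  obtain ⟨g1, g2, g3⟩ := hInv k N hN
  rintro (h4 | h4 | h4)
  · rw [h1, g1] at h4
    exact lt_irrefl _ h4
  · exact g2 (h2.1 h4.2)
  · exact (h3.1 h4.2) g3

/-- The components are not accumulating. -/
theorem not_acc (hMem : StmMem) (hNF : StmNF) {e d : ℕ} {i : St e} (hg : Good k N e d i)
    (I : Pool.Agent.Y166.GM.Invariants (XX k N))
    (hlift : ∀ (n : ℕ) (Y : Set (PP k (Fin (n + 1)))), IsProjVar Y →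
      ∀ (f : PP k (Fin (n + 1)) → PP k (Co N)), IsMorphism Y f →
      Set.MapsTo f Y (XX k N) → GenFinite Y f →
      ∀ (e₁ : ℕ) (Ns : Set (PP k (Fin (n + 1) × Fin (e₁ + 1)))), Ns ⊆ Mor Y e₁ →
      stM k N e d i ⊆ closure {γ | γ ∈ stM k N e d i ∧ ∃ g ∈ Ns, IsCompBi f g γ} →
      ¬ Breaking I Y f) :
    ¬ AccBi I (cmp k N e d i) := by
  rintro ⟨n, Y, f, hY, hf, hfX, hfin, hb, e₁, Nn, _, _, hdom⟩
  refine hlift n Y hY f hf hfX hfin e₁ (Subtype.val '' Nn) (by
    rintro _ ⟨g, _, rfl⟩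
    exact g.2) ?_ hb
  have h1 := comp_dense _ (stM k N e d) (st_sub hMem N e d) (st_cov hNF N e d) i hg.irr hg.sep
    {h | ∃ g ∈ Nn, IsCompBi f g.1 h.1} hdom
  refine h1.trans (closure_mono ?_)
  rintro x ⟨hx, h, ⟨g, hg1, hg2⟩, rfl⟩
  exact ⟨hx, g.1, ⟨g, hg1, rfl⟩, hg2⟩

/-- There are two Manin components. -/
theorem two_manin (hMem : StmMem) (hNF : StmNF) (hI1 : StmIrr1) (hI2 : StmIrr2)
    (hD2 : StmDense2) (hS : StmSep) (hT : StmTr) (hInv : StmInvY) (hL1 : StmLift1)
    (hL2 : StmLift2) (hN : 6 ≤ N) (I : Pool.Agent.Y166.GM.Invariants (XX k N))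
    (hA : Adapted k N I) (m n : ℕ) (hm : 1 ≤ m) (hmn : m + 5 ≤ n) :
    2 ≤ (maninBi I (m + n) (m + 2 * n)).encard := by
  have h1 : 2 * ((m + n) / 2) ≤ m + n := by omega
  have h2 : 2 * m ≤ m + n := by omega
  have g1 : Good k N (m + n) (m + 2 * n) (ist (m + n) ((m + n) / 2) h1) :=
    good1 hS hI1 N _ _ _ (by omega) h1 (by omega) (by omega)
  have g2 : Good k N (m + n) (m + 2 * n) (ist (m + n) m h2) :=
    good2 hS hI2 hD2 hT N m n (by omega) (by omega) h2
  have hne : ist (m + n) ((m + n) / 2) h1 ≠ ist (m + n) m h2 := by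
    intro h
    have h3 : (m + n) / 2 = m := congrArg (fun i : St (m + n) => ((i.1 : ℕ))) h
    omega
  have hsub : ({cmp k N (m + n) (m + 2 * n) (ist (m + n) ((m + n) / 2) h1),
      cmp k N (m + n) (m + 2 * n) (ist (m + n) m h2)} : Set (Set (MorBi (XX k N) (m + n) (m + 2 * n))))
      ⊆ maninBi I (m + n) (m + 2 * n) := by
    rintro M (rfl | rfl)
    · refine ⟨cmp_mem hMem hNF g1, not_acc hMem hNF g1 I ?_⟩
      intro n' Y hY f hf hfX hfin e₁ Ns hNs hdom
      exact not_brk_bir I hY hf hfX (hL1 k N (m + n) (m + 2 * n) ((m + n) / 2)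
        (m + n - (m + n) / 2) (by omega) (by omega) (by omega) (by omega) (by omega)
        n' Y hY f hf hfX hfin e₁ Ns hNs hdom)
    · refine ⟨cmp_mem hMem hNF g2, not_acc hMem hNF g2 I ?_⟩
      intro n' Y hY f hf hfX hfin e₁ Ns hNs hdom
      have e1 : m + n - m = n := by omega
      have e2 : stM k N (m + n) (m + 2 * n) (ist (m + n) m h2) =
          Strat k N (m + n) (m + 2 * n) m n := by
        show Strat k N (m + n) (m + 2 * n) m (m + n - m) = _
        rw [e1]
      rw [e2] at hdom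
      rcases hL2 k N m n (by omega) hm (by omega) n' Y hY f hf hfX hfin e₁ Ns hNs hdom with h | h
      · exact not_brk_bir I hY hf hfX h
      · exact not_brk_over hInv hN I hA hY hf hfX h
  have h3 := Set.encard_le_encard hsub
  rw [Set.encard_pair (cmp_ne hMem hne g1)] at h3
  exact h3

/-- All the strata are in the closure of the balanced one. -/
theorem all_bal (hDeg : StmDeg) (hN : 3 ≤ N) (e d : ℕ) (hd : 3 * e ≤ d) (q : ℕ) :
    ∀ a : ℕ, 2 * a ≤ e → e / 2 - a = q → Strat k N e d a (e - a) ⊆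
      closure (Strat k N e d (e / 2) (e - e / 2)) := by
  induction q with
  | zero =>
    intro a ha hq
    have h : a = e / 2 := by omega
    subst h
    exact subset_closure
  | succ q ih =>
    intro a ha hq
    have h1 := hDeg k N e d a (e - a) hN (by omega) (by omega) (by omega)
    have h2 := ih (a + 1) (by omega) (by omega)
    have e1 : e - a - 1 = e - (a + 1) := by omega
    rw [e1] at h1
    exact h1.trans (closure_minimal h2 isClosed_closure)

/-- The space is irreducible for the classes near the other boundary. -/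
theorem one_comp (hMem : StmMem) (hNF : StmNF) (hI1 : StmIrr1) (hS : StmSep) (hDeg : StmDeg)
    (hN : 3 ≤ N) (e d : ℕ) (hd : 3 * e ≤ d) (Z : Set (MorBi (XX k N) e d))
    (hZ : Z ∈ irreducibleComponents (MorBi (XX k N) e d)) : Z = Set.univ := by
  have h1 : 2 * (e / 2) ≤ e := by omega
  have g1 : Good k N e d (ist e (e / 2) h1) :=
    good1 hS hI1 N _ _ _ (by omega) h1 (by omega) (by omega)
  have h2 := cmp_mem hMem hNF g1
  have h3 : cmp k N e d (ist e (e / 2) h1) = Set.univ := by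
    apply Set.eq_univ_of_forall
    rintro ⟨x, hx⟩
    obtain ⟨i, hi⟩ := Set.mem_iUnion.1 (st_cov hNF N e d hx)
    exact all_bal hDeg hN e d hd (e / 2 - i.1) i.1 i.2 rfl hi
  have h4 : IsIrreducible (Set.univ : Set (MorBi (XX k N) e d)) := by
    rw [← h3]
    exact h2.1
  exact Set.eq_univ_of_univ_subset (hZ.2 h4 (Set.subset_univ _))

/-- The number of Manin components is at most one near the other boundary. -/
theorem le_one (hMem : StmMem) (hNF : StmNF) (hI1 : StmIrr1) (hS : StmSep) (hDeg : StmDeg)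
    (hN : 3 ≤ N) (e d : ℕ) (hd : 3 * e ≤ d) (A : Set (Set (MorBi (XX k N) e d)))
    (hA : A ⊆ irreducibleComponents (MorBi (XX k N) e d)) : A.encard ≤ 1 := by
  rw [Set.encard_le_one_iff]
  intro Z Z' hZ hZ'
  rw [one_comp hMem hNF hI1 hS hDeg hN e d hd Z (hA hZ),
    one_comp hMem hNF hI1 hS hDeg hN e d hd Z' (hA hZ')]

end

end Pool.Agent.Y198.MC
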