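import Pool.Agent.Y198.MC.Defs

/-!
# The anticanonical class of a variety covered by affine spaces
-/

set_option autoImplicit false
set_option linter.unusedSectionVars false

namespace Pool.Agent.Y198.MC

open MvPolynomial Pool.Agent.Y166.GM Pool.Agent.Y166.SM

section
variable {k : Type} [Field k] {σ τ : Type} {n : ℕ}

/-- A chart of the subset `Z` of a product of two projective spaces: the open subset
`{z ∈ Z | z (s₀, t₀) ≠ 0}` is isomorphic to the affine space of dimension `n`; the quotients of the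
homogeneous coordinates by the coordinate `(s₀, t₀)` are the polynomials `ψ j` in the `n` quotients
with the indices `ρ i`. -/
structure IsCh (Z : Set (PP k (σ × τ))) (n : ℕ) (j₀ : σ × τ) (ρ : Fin n → σ × τ)
    (ψ : σ × τ → MvPolynomial (Fin n) k) : Prop where
  one : ψ j₀ = 1
  coord : ∀ i, ψ (ρ i) = X i
  mem : ∀ c : Fin n → k, ∃ z ∈ Z, Rep z (fun j => eval c (ψ j))
  eq : ∀ z ∈ Z, ∀ v : σ × τ → k, Rep z v → v j₀ ≠ 0 →
    ∀ j, v j = v j₀ * eval (fun i => v (ρ i) / v j₀) (ψ j)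

/-- The Jacobian matrix of the quotients `ψ (ρ' i) / ψ j₁`, multiplied by `ψ j₁ ^ 2`: the matrix of
the change from the chart `ψ` to the chart with the coordinates `ρ' i` and the denominator `j₁`. -/
noncomputable def jac (ψ : σ × τ → MvPolynomial (Fin n) k) (j₁ : σ × τ) (ρ' : Fin n → σ × τ) :
    Matrix (Fin n) (Fin n) (MvPolynomial (Fin n) k) :=
  fun l i => ψ j₁ * pderiv l (ψ (ρ' i)) - ψ (ρ' i) * pderiv l (ψ j₁)

/-- The subset `Z` of a product of two projective spaces is smooth of dimension `n`, and its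
anticanonical line bundle is the restriction of `O (a, b)`: `Z` is covered by charts isomorphic to
affine spaces, such that the Jacobian determinants of the changes of the charts are the changes of
the trivialisations of `O (- a, - b)`, up to nonzero constants. -/
def AntiCan (Z : Set (PP k (σ × τ))) (n a b : ℕ) : Prop :=
  ∃ 𝒞 : Set ((σ × τ) × (Fin n → σ × τ) × (σ × τ → MvPolynomial (Fin n) k)),
    (∀ c ∈ 𝒞, IsCh Z n c.1 c.2.1 c.2.2) ∧ (∀ z ∈ Z, ∃ c ∈ 𝒞, z.rep c.1 ≠ 0) ∧
    ∀ c ∈ 𝒞, ∀ c' ∈ 𝒞, ∃ κ : k, κ ≠ 0 ∧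
      (jac c.2.2 c'.1 c'.2.1).det * c.2.2 (c'.1.1, c.1.2) ^ a * c.2.2 (c.1.1, c'.1.2) ^ b =
        C κ * c.2.2 c'.1 ^ (2 * n)

end

/-- The anticanonical class of `X` is `(N - 6) λ + 4 ν`. -/
def StmFano : Prop :=
  ∀ (k : Type) [Field k] [IsAlgClosed k] [CharZero k] (N : ℕ), 6 ≤ N →
    AntiCan (XX k N) (2 * N - 1) (N - 6) 4

end Pool.Agent.Y198.MC
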