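import Pool.Agent.Y198.MC.Can
import Pool.Agent.Y215.MC.VarX

/-! Statement of the step for the anticanonical class. -/

set_option autoImplicit false
set_option linter.unusedSectionVars false

namespace Pool.Agent.Y198.MC

open MvPolynomial Pool.Agent.Y166.GM Pool.Agent.Y166.SM
open Pool.Agent.Y215.MC.X (tu rh)

/-- The chart coordinates of the point `u, v, c`. -/
noncomputable def yc {L : Type} [Field L] {N : ℕ} (u v : Fin N → L) (c : Fin 4 → L) (i j : Fin N)
    (m : Fin 4) (t : Pool.Agent.Y215.MC.X.Ix i j m) : L := ptX u v c (rh i j m t) / ptX u v c ((i, j), tu i j m)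

/-- The change of the charts for arbitrary derivations. -/
def StmOm : Prop :=
  ∀ (L : Type) [Field L] [CharZero L] (N : ℕ), 6 ≤ N → ∀ (u v : Fin N → L) (c : Fin 4 → L),
    (∀ i j, i ≠ j → wdg u v (i, j) ≠ 0) → (∀ i j m, i ≠ j → cub u v c (tu i j m) ≠ 0) →
    ∀ (D : Fin (2 * N - 1) → Derivation ℤ L L) (i j i' j' : Fin N) (m m' : Fin 4), i ≠ j →
      i' ≠ j' → ∀ (e : Fin (2 * N - 1) ≃ Pool.Agent.Y215.MC.X.Ix i j m) (e' : Fin (2 * N - 1) ≃
        Pool.Agent.Y215.MC.X.Ix i' j' m'),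
      ∃ κ : L, (κ = 1 ∨ κ = -1) ∧
        (Matrix.of fun a b => D a (yc u v c i j m (e b))).det *
          (wdg u v (i, j) ^ (N - 6) * cub u v c (tu i j m) ^ 4) =
        κ * ((Matrix.of fun a b => D a (yc u v c i' j' m' (e' b))).det *
          (wdg u v (i', j') ^ (N - 6) * cub u v c (tu i' j' m') ^ 4))

end Pool.Agent.Y198.MC
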