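import Mathlib
import Pool.Agent.Y166.SM.Affine

/-!
# Rational curves on a projective bundle over a Grassmannian

`X = P (Sym ^ 3 S)` is the bundle over the Grassmannian `G (2, N)` whose points are the pairs of a
line `l` in the projective space of dimension `N - 1` and an effective cycle of degree three on `l`.
It has a covering `Y → X` of degree three, given by the choice of a point of the cycle.
-/

set_option autoImplicit false
set_option linter.unusedSectionVars false

namespace Pool.Agent.Y198.MC

open MvPolynomial Pool.Agent.Y166.GM Pool.Agent.Y166.SM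

/-- The indices of the Plücker coordinates of a plane in `k ^ N`. -/
abbrev Sg (N : ℕ) : Type := Fin N × Fin N

/-- The indices of the coordinates of a tensor of degree three. -/
abbrev Ta (N : ℕ) : Type := Fin N × Fin N × Fin N

/-- The indices of the products of these coordinates. -/
abbrev Co (N : ℕ) : Type := Sg N × Ta N

section
variable {A : Type} [CommRing A] {N : ℕ}

/-- The Plücker coordinates of the plane spanned by `u` and `v`. -/
def wdg (u v : Fin N → A) : Sg N → A := fun s => u s.1 * v s.2 - v s.1 * u s.2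

/-- The symmetric tensor `c 0 * u u u + c 1 * (u u v + u v u + v u u) +
c 2 * (u v v + v u v + v v u) + c 3 * v v v`. -/
def cub (u v : Fin N → A) (c : Fin 4 → A) : Ta N → A := fun t =>
  c 0 * (u t.1 * u t.2.1 * u t.2.2) +
  c 1 * (u t.1 * u t.2.1 * v t.2.2 + u t.1 * v t.2.1 * u t.2.2 + v t.1 * u t.2.1 * u t.2.2) +
  c 2 * (u t.1 * v t.2.1 * v t.2.2 + v t.1 * u t.2.1 * v t.2.2 + v t.1 * v t.2.1 * u t.2.2) +
  c 3 * (v t.1 * v t.2.1 * v t.2.2)

/-- The products of the Plücker coordinates of the plane spanned by `u` and `v` and of the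
coordinates of the symmetric tensor of degree three. -/
def ptX (u v : Fin N → A) (c : Fin 4 → A) : Co N → A := fun t => wdg u v t.1 * cub u v c t.2

/-- The vector `x 0 * u + x 1 * v`. -/
def vec (u v : Fin N → A) (x : Fin 2 → A) : Fin N → A := fun i => x 0 * u i + x 1 * v i

/-- The symmetric tensor `q 0 * u u + q 1 * (u v + v u) + q 2 * v v`. -/
def quad (u v : Fin N → A) (q : Fin 3 → A) : Fin N × Fin N → A := fun t =>
  q 0 * (u t.1 * u t.2) + q 1 * (u t.1 * v t.2 + v t.1 * u t.2) + q 2 * (v t.1 * v t.2)

/-- The products of the Plücker coordinates of the plane spanned by `u` and `v`, of the coordinates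
of the vector `x 0 * u + x 1 * v`, and of the coordinates of the symmetric tensor of degree two. -/
def ptY (u v : Fin N → A) (x : Fin 2 → A) (q : Fin 3 → A) : Co N → A := fun t =>
  wdg u v t.1 * (vec u v x t.2.1 * quad u v q t.2.2)

/-- The symmetrisation `w Q ↦ w ⊗ Q + Q ⊗ w + …` on the products of the coordinates. -/
def symm (y : Co N → A) : Co N → A := fun t =>
  y (t.1, (t.2.1, t.2.2.1, t.2.2.2)) + y (t.1, (t.2.2.1, t.2.1, t.2.2.2)) +
    y (t.1, (t.2.2.2, t.2.1, t.2.2.1))

/-- The coefficients of the cubic form which is the product of the linear form `x` and the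
quadratic form `q`, multiplied by three. -/
def mulc (x : Fin 2 → A) (q : Fin 3 → A) : Fin 4 → A :=
  ![3 * x 0 * q 0, x 1 * q 0 + 2 * x 0 * q 1, 2 * x 1 * q 1 + x 0 * q 2, 3 * x 1 * q 2]

end

section
variable (k : Type) [Field k] (N : ℕ)

/-- The bundle `P (Sym ^ 3 S)` over the Grassmannian of the planes `S` in `k ^ N`: the points are
the pairs of a plane `S`, given by its Plücker coordinates, and a nonzero element of the third
symmetric power of `S` up to a scalar. -/
def XX : Set (PP k (Co N)) := {x | ∃ (u v : Fin N → k) (c : Fin 4 → k), Rep x (ptX u v c)}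

/-- The bundle `P (S) × P (Sym ^ 2 S)` over the Grassmannian of the planes `S` in `k ^ N`. -/
def YY : Set (PP k (Co N)) :=
  {y | ∃ (u v : Fin N → k) (x : Fin 2 → k) (q : Fin 3 → k), Rep y (ptY u v x q)}

open Classical in
/-- The morphism `P (S) × P (Sym ^ 2 S) → P (Sym ^ 3 S)` given by the multiplication. -/
noncomputable def cov (y : PP k (Co N)) : PP k (Co N) :=
  if h : symm y.rep ≠ 0 then Projectivization.mk k _ h else y

end

section
variable {k : Type} [Field k]

/-- The varieties `Y` and `Y'` with morphisms `f`, `f'` to a projective space are birational over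
this space: nonempty open subsets of them are isomorphic, compatibly with `f` and `f'`. -/
def BirOver {ρ ρ' τ : Type} (Y : Set (PP k ρ)) (f : PP k ρ → PP k τ) (Y' : Set (PP k ρ'))
    (f' : PP k ρ' → PP k τ) : Prop :=
  ∃ (U : Set (PP k ρ)) (U' : Set (PP k ρ')) (g : PP k ρ → PP k ρ') (g' : PP k ρ' → PP k ρ),
    IsOpen U ∧ IsOpen U' ∧ (U ∩ Y).Nonempty ∧
    Set.MapsTo g (U ∩ Y) (U' ∩ Y') ∧ Set.MapsTo g' (U' ∩ Y') (U ∩ Y) ∧
    IsMorphism (U ∩ Y) g ∧ IsMorphism (U' ∩ Y') g' ∧
    (∀ y ∈ U ∩ Y, g' (g y) = y) ∧ (∀ y ∈ U' ∩ Y', g (g' y) = y) ∧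
    ∀ y ∈ U ∩ Y, f' (g y) = f y

variable {σ τ : Type} {e d e₁ : ℕ}

/-- The morphism `h` from the projective line to a product of two projective spaces is the
composition of the morphism `g` from the projective line with the morphism `f`. -/
def IsCompBi {ρ : Type} (f : PP k ρ → PP k (σ × τ)) (g : PP k (ρ × Fin (e₁ + 1)))
    (h : PP k ((σ × Fin (e + 1)) × (τ × Fin (d + 1)))) : Prop :=
  ∀ s : Fin 2 → k, s ≠ 0 → ∀ y : PP k ρ, Rep y (forms g.rep s) → Rep (f y) (biforms h.rep s)

variable {X : Set (PP k (σ × τ))} (I : Pool.Agent.Y166.GM.Invariants X)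

/-- The component `M` of the space of the morphisms of bidegree `(e, d)` is accumulating: there are
a breaking morphism `f : Y → X`, generically finite onto its image, from a projective variety `Y`,
and a component `N` of the space of the morphisms from the projective line to `Y`, such that the
composition with `f` is a dominant map from `N` to `M`. -/
def AccBi (M : Set (MorBi X e d)) : Prop :=
  ∃ (n : ℕ) (Y : Set (PP k (Fin (n + 1)))) (f : PP k (Fin (n + 1)) → PP k (σ × τ)),
    IsProjVar Y ∧ IsMorphism Y f ∧ Set.MapsTo f Y X ∧ GenFinite Y f ∧ Breaking I Y f ∧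
    ∃ (e₁ : ℕ), ∃ N ∈ irreducibleComponents (Mor Y e₁),
      (∀ g ∈ N, ∃ h ∈ M, IsCompBi f g.1 h.1) ∧
      M ⊆ closure {h | h ∈ M ∧ ∃ g ∈ N, IsCompBi f g.1 h.1}

/-- The Manin components of the space of the morphisms of bidegree `(e, d)`. -/
def maninBi (e d : ℕ) : Set (Set (MorBi X e d)) :=
  {M | M ∈ irreducibleComponents (MorBi X e d) ∧ ¬ AccBi I M}

end

end Pool.Agent.Y198.MC
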