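import Pool.Agent.Y198.MC.Stm

/-! Derivations which kill a curve of the second family kill its parameters. -/

set_option autoImplicit false

namespace Pool.Agent.Y198.MC

open Polynomial

section
variable {K : Type} [Field K] (D : Derivation ℤ K K)

/-- The coefficientwise derivation. -/
noncomputable def dp (p : K[X]) : K[X] :=
  ∑ i ∈ Finset.range (p.natDegree + 1), monomial i (D (p.coeff i))

theorem dp_coeff (p : K[X]) (i : ℕ) : (dp D p).coeff i = D (p.coeff i) := by
  unfold dp
  rw [finsetSum_coeff]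
  by_cases h : i < p.natDegree + 1
  · rw [Finset.sum_eq_single i]
    · rw [coeff_monomial, if_pos rfl]
    · intro j _ hji
      rw [coeff_monomial, if_neg hji]
    · intro h'
      exact absurd (Finset.mem_range.2 h) h'
  · rw [coeff_eq_zero_of_natDegree_lt (by omega : p.natDegree < i), map_zero]
    apply Finset.sum_eq_zero
    intro j hj
    rw [coeff_monomial, if_neg]
    rw [Finset.mem_range] at hj
    omega

theorem dp_zero_iff (p : K[X]) : dp D p = 0 ↔ ∀ i, D (p.coeff i) = 0 := by
  constructor
  · intro h i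
    rw [← dp_coeff, h, coeff_zero]
  · intro h
    ext i
    rw [dp_coeff, h, coeff_zero]

theorem dp_add (p q : K[X]) : dp D (p + q) = dp D p + dp D q := by
  ext i
  rw [coeff_add, dp_coeff, dp_coeff, dp_coeff, coeff_add, map_add]

theorem dp_sub (p q : K[X]) : dp D (p - q) = dp D p - dp D q := by
  ext i
  rw [coeff_sub, dp_coeff, dp_coeff, dp_coeff, coeff_sub, map_sub]

theorem dp_mul (p q : K[X]) : dp D (p * q) = p * dp D q + dp D p * q := by
  ext n
  rw [coeff_add, dp_coeff, coeff_mul, coeff_mul, coeff_mul, map_sum, ← Finset.sum_add_distrib]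
  refine Finset.sum_congr rfl fun x _ => ?_
  rw [dp_coeff, dp_coeff, Derivation.leibniz, smul_eq_mul, smul_eq_mul]
  ring

end

/-- A symmetric tensor on an independent pair determines its coefficients. -/
theorem cub_inj {A : Type} [CommRing A] [IsDomain A] {N : ℕ} (u v : Fin N → A) (c : Fin 4 → A)
    (s : Fin N × Fin N) (hs : wdg u v s ≠ 0) (h : ∀ t, cub u v c t = 0) : ∀ i, c i = 0 := by
  obtain ⟨p, q⟩ := s
  set W := wdg u v (p, q) with hW
  have hW' : W = u p * v q - v p * u q := rfl
  have e1 := h (p, p, p)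
  have e2 := h (p, p, q)
  have e3 := h (p, q, p)
  have e4 := h (p, q, q)
  have e5 := h (q, p, p)
  have e6 := h (q, p, q)
  have e7 := h (q, q, p)
  have e8 := h (q, q, q)
  unfold cub at e1 e2 e3 e4 e5 e6 e7 e8
  simp only at e1 e2 e3 e4 e5 e6 e7 e8
  have k0 : W ^ 3 * c 0 = 0 := by
    rw [hW']
    linear_combination (v q) ^ 3 * e1 - (v q) ^ 2 * v p * (e2 + e3 + e5) +
      v q * (v p) ^ 2 * (e4 + e6 + e7) - (v p) ^ 3 * e8
  have k1 : W ^ 3 * c 1 = 0 := by
    rw [hW']
    linear_combination (v q) ^ 2 * (-u q) * e1 + (v q) ^ 2 * u p * e2 +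
      (v q) * (-v p) * (-u q) * e3 + v q * (-v p) * u p * e4 + (-v p) * v q * (-u q) * e5 +
      (-v p) * (v q) * u p * e6 + (v p) ^ 2 * (-u q) * e7 + (v p) ^ 2 * (u p) * e8
  have k2 : W ^ 3 * c 2 = 0 := by
    rw [hW']
    linear_combination (v q) * (u q) ^ 2 * e1 + (v q) * (-u q) * u p * e2 +
      (v q) * (u p) * (-u q) * e3 + v q * (u p) ^ 2 * e4 + (-v p) * (u q) ^ 2 * e5 +
      (-v p) * (-u q) * u p * e6 + (-v p) * (u p) * (-u q) * e7 + (-v p) * (u p) ^ 2 * e8
  have k3 : W ^ 3 * c 3 = 0 := by
    rw [hW']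
    linear_combination -(u q) ^ 3 * e1 + (u q) ^ 2 * u p * (e2 + e3 + e5) -
      u q * (u p) ^ 2 * (e4 + e6 + e7) + (u p) ^ 3 * e8
  have hW3 : W ^ 3 ≠ 0 := pow_ne_zero 3 hs
  intro i
  fin_cases i
  · exact (mul_eq_zero.1 k0).resolve_left hW3
  · exact (mul_eq_zero.1 k1).resolve_left hW3
  · exact (mul_eq_zero.1 k2).resolve_left hW3
  · exact (mul_eq_zero.1 k3).resolve_left hW3

theorem stmDer : StmDer := by
  intro K _ _ N D u v f hne hw hc
  obtain ⟨⟨p, q⟩, hs⟩ : ∃ s, wdg u v s ≠ 0 := by
    by_contra hcon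
    push Not at hcon
    exact hne (funext hcon)
  set u' : Fin N → K[X] := fun i => dp D (u i) with hu'
  set v' : Fin N → K[X] := fun i => dp D (v i) with hv'
  set f' : K[X] := dp D f with hf'
  -- the relations
  have E : ∀ i j, u' i * v j + u i * v' j - (v' i * u j + v i * u' j) = 0 := by
    intro i j
    have h1 : dp D (wdg u v (i, j)) = 0 := (dp_zero_iff D _).2 (hw (i, j))
    unfold wdg at h1
    simp only at h1
    rw [dp_sub, dp_mul, dp_mul] at h1
    rw [← h1]
    simp only [hu', hv']
    ring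
  set W : K[X] := wdg u v (p, q) with hW
  have hW' : W = u p * v q - v p * u q := rfl
  set A : K[X] := u' p * v q - v p * u' q with hA
  set B : K[X] := u p * u' q - u' p * u q with hB
  set C : K[X] := v' p * v q - v p * v' q with hC
  set F : K[X] := u p * v' q - v' p * u q with hF
  have hAF : A + F = 0 := by
    rw [hA, hF]
    linear_combination E p q
  have hu : ∀ r, W * u' r = A * u r + B * v r := by
    intro r
    rw [hW', hA, hB]
    linear_combination -(u p) * E q r + u q * E p r - u r * E p q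
  have hv : ∀ r, W * v' r = C * u r + F * v r := by
    intro r
    rw [hW', hC, hF]
    linear_combination -(v p) * E q r + v q * E p r - v r * E p q
  have hG : ∀ t, cub u v ![W * f' + 3 * f * A, f * B + 2 * C, A + 2 * F, 3 * B] t = 0 := by
    rintro ⟨i, j, l⟩
    have h1 : dp D (cub u v ![f, 0, 1, 0] (i, j, l)) = 0 := (dp_zero_iff D _).2 (hc (i, j, l))
    have h2 : cub u v ![f, 0, 1, 0] (i, j, l) = f * (u i * u j * u l) +
        (u i * v j * v l + v i * u j * v l + v i * v j * u l) := by
      unfold cub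
      simp
    rw [h2] at h1
    simp only [dp_add, dp_mul] at h1
    have h3 : f' * (u i * u j * u l) + f * (u' i * u j * u l + u i * u' j * u l + u i * u j * u' l)
        + (u' i * v j * v l + u i * v' j * v l + u i * v j * v' l +
          (v' i * u j * v l + v i * u' j * v l + v i * u j * v' l) +
          (v' i * v j * u l + v i * v' j * u l + v i * v j * u' l)) = 0 := by
      rw [← h1]
      simp only [hu', hv', hf']
      ring
    unfold cub
    simp only [Matrix.cons_val_zero, Matrix.cons_val_one, Matrix.cons_val]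
    linear_combination W * h3 - (f * u j * u l + v j * v l) * hu i -
      (f * u i * u l + v i * v l) * hu j - (f * u i * u j + v i * v j) * hu l -
      (u j * v l + v j * u l) * hv i - (u i * v l + v i * u l) * hv j -
      (u i * v j + v i * u j) * hv l
  have hz := cub_inj u v _ (p, q) hs hG
  have z0 : W * f' + 3 * f * A = 0 := hz 0
  have z1 : f * B + 2 * C = 0 := hz 1
  have z2 : A + 2 * F = 0 := hz 2
  have z3 : 3 * B = 0 := hz 3
  have hF0 : F = 0 := by linear_combination z2 - hAF
  have hA0 : A = 0 := by linear_combination hAF - hF0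
  have h2 : (2 : K[X]) ≠ 0 := two_ne_zero
  have h3 : (3 : K[X]) ≠ 0 := by
    have h := (Nat.cast_ne_zero (R := K[X])).2 (show (3 : ℕ) ≠ 0 by norm_num)
    exact_mod_cast h
  have hB0 : B = 0 := (mul_eq_zero.1 z3).resolve_left h3
  have hC0 : C = 0 := by
    have : 2 * C = 0 := by linear_combination z1 - f * hB0
    exact (mul_eq_zero.1 this).resolve_left h2
  have hf0 : f' = 0 := by
    have : W * f' = 0 := by linear_combination z0 - 3 * f * hA0
    exact (mul_eq_zero.1 this).resolve_left hs
  refine ⟨fun j => (dp_zero_iff D _).1 ?_, fun j => (dp_zero_iff D _).1 ?_,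
    (dp_zero_iff D _).1 hf0⟩
  · have h4 := hu j
    rw [hA0, hB0, zero_mul, zero_mul, add_zero] at h4
    exact (mul_eq_zero.1 h4).resolve_left hs
  · have h4 := hv j
    rw [hC0, hF0, zero_mul, zero_mul, add_zero] at h4
    exact (mul_eq_zero.1 h4).resolve_left hs

end Pool.Agent.Y198.MC
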