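import Pool.Agent.Y198.MC.Defs

/-!
# Sections of line bundles on the bundle and on its covering

The line bundles on `X = P (Sym ^ 3 S)` are `a λ + b ν`, where `λ` is the Plücker class and `ν` the
class of the coordinates of the symmetric tensor; their sections are the polynomials in a basis
`u, v` of the plane and the coefficients `c` which are homogeneous of degree `b` in `c` and are
multiplied by `det g ^ a` under a change of the basis. Similarly for `Y = P (S) × P (Sym ^ 2 S)`,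
with the class `D 0` of the coordinates of the vector, `D 1` of the coordinates of the tensor of
degree two, and `D 2` of the Plücker coordinates.
-/

set_option autoImplicit false
set_option linter.unusedSectionVars false

namespace Pool.Agent.Y198.MC

open MvPolynomial Pool.Agent.Y166.GM Pool.Agent.Y166.SM
open scoped NNReal

section
variable (k : Type) [Field k] (N : ℕ)

/-- The first vector of the new basis. -/
def bas0 {A : Type} [CommRing A] {N : ℕ} (g : Matrix (Fin 2) (Fin 2) A) (u v : Fin N → A) :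
    Fin N → A := fun i => g 0 0 * u i + g 1 0 * v i

/-- The second vector of the new basis. -/
def bas1 {A : Type} [CommRing A] {N : ℕ} (g : Matrix (Fin 2) (Fin 2) A) (u v : Fin N → A) :
    Fin N → A := fun i => g 0 1 * u i + g 1 1 * v i

/-- The sections of the line bundle `a λ + b ν` on `X`. -/
def secX (a b : ℤ) : Set (MvPolynomial (Fin N ⊕ (Fin N ⊕ Fin 4)) k) :=
  {Φ | ∀ (u v : Fin N → k) (c : Fin 4 → k), wdg u v ≠ 0 →
    (∀ s : k, s ≠ 0 → eval (Sum.elim u (Sum.elim v (s • c))) Φ =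
      s ^ b * eval (Sum.elim u (Sum.elim v c)) Φ) ∧
    ∀ (g : Matrix (Fin 2) (Fin 2) k) (c' : Fin 4 → k), g.det ≠ 0 →
      cub (bas0 g u v) (bas1 g u v) c' = cub u v c →
      eval (Sum.elim (bas0 g u v) (Sum.elim (bas1 g u v) c')) Φ =
        g.det ^ a * eval (Sum.elim u (Sum.elim v c)) Φ}

/-- The nef cone of curves of `X`: the pairs `β` of the degrees with respect to `λ` and `ν` which
have a nonnegative product with all classes of effective divisors. -/
def nefX : Set (ℝ × ℝ) :=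
  {β | ∀ a b : ℤ, (∃ Φ ∈ secX k N a b, Φ ≠ 0) → 0 ≤ a * β.1 + b * β.2}

/-- The sections of the line bundle of class `D` on `Y`. -/
def secY (D : Fin 3 → ℤ) : Set (MvPolynomial (Fin N ⊕ (Fin N ⊕ (Fin 2 ⊕ Fin 3))) k) :=
  {Φ | ∀ (u v : Fin N → k) (x : Fin 2 → k) (q : Fin 3 → k), wdg u v ≠ 0 →
    (∀ s r : k, s ≠ 0 → r ≠ 0 → eval (Sum.elim u (Sum.elim v (Sum.elim (s • x) (r • q)))) Φ =
      s ^ D 0 * r ^ D 1 * eval (Sum.elim u (Sum.elim v (Sum.elim x q))) Φ) ∧
    ∀ (g : Matrix (Fin 2) (Fin 2) k) (x' : Fin 2 → k) (q' : Fin 3 → k), g.det ≠ 0 →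
      vec (bas0 g u v) (bas1 g u v) x' = vec u v x →
      quad (bas0 g u v) (bas1 g u v) q' = quad u v q →
      eval (Sum.elim (bas0 g u v) (Sum.elim (bas1 g u v) (Sum.elim x' q'))) Φ =
        g.det ^ D 2 * eval (Sum.elim u (Sum.elim v (Sum.elim x q))) Φ}

/-- The classes of the effective divisors on `Y`. -/
def effY : Set (Fin 3 → ℝ) :=
  {D | ∃ z : Fin 3 → ℤ, (∀ i, D i = z i) ∧ ∃ Φ ∈ secY k N z, Φ ≠ 0}

/-- The canonical class of `Y`. -/
def KY : Fin 3 → ℝ := ![-2, -3, 4 - N]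

/-- The pullback of the anticanonical class of `X` to `Y`. -/
def LY : Fin 3 → ℝ := ![4, 4, N - 6]

/-- The number `a (Y, - f ^* K_X)`. -/
noncomputable def aY : ℝ :=
  sInf {t : ℝ | KY N + t • LY N ∈ closure (Submodule.span ℝ≥0 (effY k N) : Set (Fin 3 → ℝ))}

/-- The Iitaka dimension of `K_Y + a (Y, - f ^* K_X) (- f ^* K_X)` is positive. -/
def kapY : Prop :=
  ∃ (m : ℕ) (D : Fin 3 → ℤ), 1 ≤ m ∧ (∀ i, (D i : ℝ) = m * (KY N + aY k N • LY N) i) ∧
    ∃ Φ₁ ∈ secY k N D, ∃ Φ₂ ∈ secY k N D, LinearIndependent k ![Φ₁, Φ₂]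

/-- The face `F (Y, - f ^* K_X)` of the nef cone of curves of `Y`. -/
def faceY : Set (Fin 3 → ℝ) :=
  {γ | (∀ D ∈ effY k N, 0 ≤ ∑ i, D i * γ i) ∧ ∑ i, (KY N + aY k N • LY N) i * γ i = 0}

/-- The map `f_*` on the classes of curves. -/
def push (γ : Fin 3 → ℝ) : ℝ × ℝ := (γ 2, γ 0 + γ 1)

/-- The data on the morphisms to `X` are those of `Y → X` for all varieties which are birational to
`Y` over `X`. -/
def Adapted (I : Pool.Agent.Y166.GM.Invariants (XX k N)) : Prop :=
  ∀ (n : ℕ) (Y : Set (PP k (Fin (n + 1)))) (f : PP k (Fin (n + 1)) → PP k (Co N)),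
    IsProjVar Y → IsMorphism Y f → Set.MapsTo f Y (XX k N) → BirOver Y f (YY k N) (cov k N) →
    I.a Y f = aY k N ∧ (I.iitakaPos Y f ↔ kapY k N) ∧
      (I.faceContracting Y f ↔ ¬ Set.InjOn push (faceY k N))

end

end Pool.Agent.Y198.MC
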